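import Pool.Agent.L7h65.BI.Sd

/-!
# Project BI, part IN2: the general inner estimate
-/

set_option autoImplicit false

open MeasureTheory Set Filter Topology Real
open scoped ENNReal

namespace Pool.Agent.L7h65.BI

open Pool.Agent.L7h99.BI

section refl

variable {d : ℕ}

/-- the reflection in the line of `y` -/
noncomputable def Rf (y : E d) : E d ≃ₗᵢ[ℝ] E d := (Submodule.span ℝ {y}).reflection

lemma Rf_apply (y σ : E d) : Rf y σ = (2 * (ip y σ / ‖y‖ ^ 2)) • y - σ := by
  unfold Rf ip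
  rw [Submodule.reflection_singleton_apply]
  simp only [RCLike.ofReal_real_eq_id, id_eq]
  rw [two_smul, ← add_smul, two_mul]

lemma ip_Rf {y : E d} (hy : y ≠ 0) (σ : E d) : ip y (Rf y σ) = ip y σ := by
  have hn : ‖y‖ ^ 2 ≠ 0 := pow_ne_zero 2 (norm_ne_zero_iff.2 hy)
  rw [Rf_apply]
  unfold ip
  rw [inner_sub_right, inner_smul_right, real_inner_self_eq_norm_sq]
  field_simp
  ring

/-- the displacement -/
noncomputable def hh (v y σ : E d) : E d := vq v y σ - v

lemma hh_eq (v y σ : E d) : hh v y σ = (‖y‖ ^ 2 / ip y σ) • σ - y := by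
  unfold hh vq
  abel

lemma hh_Rf {v y : E d} (hy : y ≠ 0) {σ : E d} (h0 : ip y σ ≠ 0) :
    hh v y (Rf y σ) = -hh v y σ := by
  have hn : ‖y‖ ^ 2 ≠ 0 := pow_ne_zero 2 (norm_ne_zero_iff.2 hy)
  rw [hh_eq, hh_eq, ip_Rf hy, Rf_apply, smul_sub, smul_smul]
  rw [show ‖y‖ ^ 2 / ip y σ * (2 * (ip y σ / ‖y‖ ^ 2)) = 2 by field_simp, two_smul]
  abel

lemma hh_sq {v y σ : E d} (hσ : ‖σ‖ = 1) (hy : y ≠ 0) (h0 : ip y σ ≠ 0) :
    ‖hh v y σ‖ ^ 2 = ‖y‖ ^ 2 * ((1 - (ip y σ / ‖y‖) ^ 2) / (ip y σ / ‖y‖) ^ 2) := by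
  have hn : ‖y‖ ≠ 0 := norm_ne_zero_iff.2 hy
  rw [hh_eq, norm_sub_sq_real, norm_smul, hσ, mul_one, real_inner_smul_left,
    real_inner_comm]
  rw [show inner ℝ y σ = ip y σ from rfl, Real.norm_eq_abs, sq_abs]
  field_simp
  ring

end refl

lemma meas_ip {d : ℕ} (y : E d) : Measurable fun σ : E d => ip y σ := by
  unfold ip
  exact (continuous_const.inner continuous_id).measurable

lemma meas_Bt {d : ℕ} {γ : ℝ} {b : ℝ → ℝ} (hb : Measurable b) (ε : ℝ) :
    Measurable (Bt d γ b ε) := by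
  have hbt : Measurable (bt b ε) := by
    unfold bt
    exact Measurable.ite measurableSet_Ioi ((Measurable.ite measurableSet_Iio hb
      measurable_const).add (hb.comp measurable_neg))
      (Measurable.ite (measurableSet_singleton 0) measurable_const measurable_const)
  unfold Bt
  refine Measurable.ite measurableSet_Ioi ?_ measurable_const
  refine Measurable.mul (ENNReal.measurable_ofReal.comp ?_) (ENNReal.measurable_ofReal.comp ?_)
  · exact (measurable_id.pow_const _).const_mul _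
  · exact hbt.comp (by fun_prop)

lemma meas_vq {d : ℕ} (v y : E d) : Measurable fun σ : E d => vq v y σ := by
  unfold vq
  have := meas_ip y
  fun_prop

lemma meas_nb {d : ℕ} (q : ℝ) (v : E d) : Measurable fun a : E d => nb q v a := by
  unfold nb
  refine Measurable.ite ?_ measurable_const ?_
  · by_cases h : 10 ≤ ‖v‖
    · simp only [h, true_and]
      exact measurableSet_lt measurable_norm measurable_const
    · simp only [h, false_and]
      exact MeasurableSet.empty
  · unfold ph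
    fun_prop

/-- **IN2** -/
theorem t_IN2 : S_IN2 := by
  intro hI hBB d hd s hs hs1 γ hγ b c₁ c₂ hK q hq
  obtain ⟨C, hC, hB1⟩ := (hBB d hd s hs hs1 γ hγ b c₁ c₂ hK).1
  obtain ⟨K, hK0, hpt⟩ := pt_in2 hq
  refine ⟨K * C, by positivity, fun ε hε hε1 F m hF hF0 hm hFm v y hy => ?_⟩
  have hyn : 0 < ‖y‖ := norm_pos_iff.2 hy
  have hB : 0 < 1 + ‖v‖ ^ 2 := by positivity
  have hφ : 0 < ph q v := by unfold ph; positivity
  have mB : Measurable fun σ : E d => Bt d γ b ε (ip y σ / ‖y‖) :=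
    (meas_Bt hK.meas ε).comp ((meas_ip y).div_const _)
  have mvq := meas_vq v y
  have mN : Measurable fun σ : E d => ENNReal.ofReal (nb q v (vq v y σ)) :=
    ENNReal.measurable_ofReal.comp ((meas_nb q v).comp mvq)
  set W : Sd d → ℝ≥0∞ := fun σ => Bt d γ b ε (ip y σ / ‖y‖) with hW
  have mW : Measurable W := mB.comp measurable_subtype_coe
  have mWN : Measurable fun σ : Sd d => W σ * ENNReal.ofReal (nb q v (vq v y σ)) :=
    mW.mul (mN.comp measurable_subtype_coe)
  -- the integral of the symmetric part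
  set I : ℝ≥0∞ := ∫⁻ σ : Sd d, W σ * ENNReal.ofReal (nb q v (vq v y σ)) ∂(mS d) with hIdef
  have hsym : ∫⁻ σ : Sd d, W σ * ENNReal.ofReal (nb q v (v - hh v y σ)) ∂(mS d) = I := by
    have h1 := hI d (Rf y) (fun σ => Bt d γ b ε (ip y σ / ‖y‖) *
      ENNReal.ofReal (nb q v (vq v y σ))) (mB.mul mN)
    rw [hIdef, hW]
    refine Eq.trans (lintegral_congr fun σ => ?_) h1
    simp only
    rw [ip_Rf hy]
    by_cases h0 : ip y (σ : E d) = 0
    · have : Bt d γ b ε (ip y (σ : E d) / ‖y‖) = 0 := by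
        unfold Bt
        rw [h0, zero_div, if_neg (lt_irrefl _)]
      rw [this, zero_mul, zero_mul]
    · have h2 : vq v y (Rf y σ) = v - hh v y σ := by
        have := hh_Rf (v := v) hy h0
        unfold hh at this ⊢
        rw [sub_eq_iff_eq_add.1 this]
        abel
      rw [h2]
  set Z : ℝ := ‖y‖ / √(1 + ‖v‖ ^ 2) with hZ
  have hZ0 : 0 < Z := by positivity
  have hZ2 : Z ^ 2 = ‖y‖ ^ 2 / (1 + ‖v‖ ^ 2) := by
    rw [hZ, div_pow, sq_sqrt hB.le]
  have hBBn : ∫⁻ σ : Sd d, W σ * ENNReal.ofReal (min 1 (Z ^ 2 *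
      ((1 - (ip y σ / ‖y‖) ^ 2) / (ip y σ / ‖y‖) ^ 2))) ∂(mS d) ≤
        ENNReal.ofReal (C * Z ^ (2 * s)) := by
    have h1 := hB1 ε hε hε1 ((‖y‖)⁻¹ • y) (by
      rw [norm_smul, norm_inv, norm_norm, inv_mul_cancel₀ hyn.ne']) Z hZ0
    have h2 : ∀ σ : E d, ip ((‖y‖)⁻¹ • y) σ = ip y σ / ‖y‖ := by
      intro σ
      unfold ip
      rw [real_inner_smul_left]
      field_simp
    simp only [h2] at h1
    exact h1
  have h2I : I + I ≤ ENNReal.ofReal (2 * ph q v) * (∫⁻ σ : Sd d, W σ ∂(mS d)) +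
      ENNReal.ofReal (K * ph q v) * ENNReal.ofReal (C * Z ^ (2 * s)) := by
    calc I + I = ∫⁻ σ : Sd d, (W σ * ENNReal.ofReal (nb q v (vq v y σ)) +
          W σ * ENNReal.ofReal (nb q v (v - hh v y σ))) ∂(mS d) := by
          rw [lintegral_add_left mWN, hsym]
      _ ≤ ∫⁻ σ : Sd d, (ENNReal.ofReal (2 * ph q v) * W σ + ENNReal.ofReal (K * ph q v) *
          (W σ * ENNReal.ofReal (min 1 (Z ^ 2 *
            ((1 - (ip y σ / ‖y‖) ^ 2) / (ip y σ / ‖y‖) ^ 2))))) ∂(mS d) := by
          refine lintegral_mono fun σ => ?_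
          have hσ : ‖(σ : E d)‖ = 1 := by simp
          by_cases h0 : ip y (σ : E d) = 0
          · have : W σ = 0 := by
              simp only [hW]
              unfold Bt
              rw [h0, zero_div, if_neg (lt_irrefl _)]
            rw [this]
            simp
          · have h3 := hpt d v (hh v y σ)
            have h4 : v + hh v y σ = vq v y σ := by unfold hh; abel
            rw [h4, hh_sq hσ hy h0, mul_div_right_comm, ← hZ2] at h3
            set mn := min 1 (Z ^ 2 * ((1 - (ip y σ / ‖y‖) ^ 2) / (ip y σ / ‖y‖) ^ 2)) with hmn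
            have e1 : ENNReal.ofReal (nb q v (vq v y σ)) + ENNReal.ofReal (nb q v (v - hh v y σ)) ≤
                ENNReal.ofReal (2 * ph q v) + ENNReal.ofReal (K * ph q v) * ENNReal.ofReal mn := by
              rw [← ENNReal.ofReal_add (nb_nonneg _ _ _) (nb_nonneg _ _ _),
                ← ENNReal.ofReal_mul (by positivity)]
              exact (ENNReal.ofReal_le_ofReal h3).trans ENNReal.ofReal_add_le
            calc W σ * ENNReal.ofReal (nb q v (vq v y σ)) +
                  W σ * ENNReal.ofReal (nb q v (v - hh v y σ))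
                = W σ * (ENNReal.ofReal (nb q v (vq v y σ)) +
                  ENNReal.ofReal (nb q v (v - hh v y σ))) := by rw [mul_add]
              _ ≤ W σ * (ENNReal.ofReal (2 * ph q v) +
                  ENNReal.ofReal (K * ph q v) * ENNReal.ofReal mn) := mul_le_mul_right e1 _
              _ = _ := by ring
      _ = ENNReal.ofReal (2 * ph q v) * (∫⁻ σ : Sd d, W σ ∂(mS d)) + ENNReal.ofReal (K * ph q v) *
          ∫⁻ σ : Sd d, W σ * ENNReal.ofReal (min 1 (Z ^ 2 *
            ((1 - (ip y σ / ‖y‖) ^ 2) / (ip y σ / ‖y‖) ^ 2))) ∂(mS d) := by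
          rw [lintegral_add_left (mW.const_mul _), lintegral_const_mul' _ _ ENNReal.ofReal_ne_top,
            lintegral_const_mul' _ _ ENNReal.ofReal_ne_top]
      _ ≤ _ := add_le_add_right (mul_le_mul_right hBBn _) _
  have hIle : I ≤ ENNReal.ofReal (ph q v) * ((∫⁻ σ : Sd d, W σ ∂(mS d)) +
      ENNReal.ofReal (K * C * Z ^ (2 * s))) := by
    have h3 : 2 * I ≤ 2 * (ENNReal.ofReal (ph q v) * ((∫⁻ σ : Sd d, W σ ∂(mS d)) +
        ENNReal.ofReal (K * C * Z ^ (2 * s)))) := by
      rw [two_mul]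
      refine h2I.trans ?_
      rw [ENNReal.ofReal_mul (by norm_num), ENNReal.ofReal_ofNat, ← ENNReal.ofReal_mul (by positivity)]
      have e1 : ENNReal.ofReal (K * ph q v * (C * Z ^ (2 * s))) =
          ENNReal.ofReal (ph q v) * ENNReal.ofReal (K * C * Z ^ (2 * s)) := by
        rw [← ENNReal.ofReal_mul hφ.le]
        congr 1
        ring
      rw [e1, mul_add, mul_add, mul_assoc]
      refine add_le_add_right ?_ _
      generalize ENNReal.ofReal (ph q v) * ENNReal.ofReal (K * C * Z ^ (2 * s)) = x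
      rw [two_mul]
      exact le_self_add
    exact (ENNReal.mul_le_mul_iff_right two_ne_zero ENNReal.ofNat_ne_top).1 h3
  calc ∫⁻ σ : Sd d, W σ * ENNReal.ofReal (F (vq v y σ)) ∂(mS d)
      ≤ ∫⁻ σ : Sd d, (ENNReal.ofReal m * (W σ * ENNReal.ofReal (nb q v (vq v y σ))) +
          W σ * (if 10 ≤ ‖v‖ ∧ ‖vq v y σ‖ < ‖v‖ / 20 then ENNReal.ofReal (F (vq v y σ)) else 0))
            ∂(mS d) := by
        refine lintegral_mono fun σ => ?_
        simp only [nb]
        split_ifs with hsl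
        · rw [ENNReal.ofReal_zero, mul_zero, mul_zero, zero_add]
        · rw [mul_zero, add_zero, ← mul_assoc, mul_comm (ENNReal.ofReal m), mul_assoc,
            ← ENNReal.ofReal_mul hm.le]
          exact mul_le_mul_right (ENNReal.ofReal_le_ofReal (hFm _)) _
    _ = ENNReal.ofReal m * I + ∫⁻ σ : Sd d, W σ * (if 10 ≤ ‖v‖ ∧ ‖vq v y σ‖ < ‖v‖ / 20 then
          ENNReal.ofReal (F (vq v y σ)) else 0) ∂(mS d) := by
        rw [lintegral_add_left (mWN.const_mul _),
          lintegral_const_mul' _ _ ENNReal.ofReal_ne_top]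
    _ ≤ _ := by
        refine add_le_add_left ?_ _
        rw [ENNReal.ofReal_mul hm.le, mul_assoc]
        exact mul_le_mul_right hIle _

end Pool.Agent.L7h65.BI
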