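import Pool.Agent.L7h65.BI.Bb
import Pool.Agent.L7h99.BI.Stm3

/-!
# Project BI3, part BB3: integrals of the angular kernel, every real exponent
-/

set_option autoImplicit false

open MeasureTheory Set Filter Topology Real
open scoped ENNReal

namespace Pool.Agent.L7h65.BI

open Pool.Agent.L7h99.BI

lemma cpow {c : ℝ} (h1 : 1 / 2 ≤ c) (h2 : c ≤ 1) (e : ℝ) :
    (1 / 2 : ℝ) ^ |e| ≤ c ^ e ∧ c ^ e ≤ 2 ^ |e| := by
  have h0 : 0 < c := by linarith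
  rcases le_total 0 e with he | he
  · rw [abs_of_nonneg he]
    refine ⟨rpow_le_rpow (by norm_num) h1 he, ?_⟩
    exact (rpow_le_one h0.le h2 he).trans (one_le_rpow (by norm_num) he)
  · rw [abs_of_nonpos he]
    constructor
    · refine (rpow_le_one (by norm_num) (by norm_num) (by linarith)).trans ?_
      exact one_le_rpow_of_pos_of_le_one_of_nonpos h0 h2 he
    · have h3 := rpow_le_rpow_of_nonpos (x := 1 / 2) (y := c) (z := e) (by norm_num) h1 he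
      refine h3.trans (le_of_eq ?_)
      rw [rpow_neg (by norm_num), ← inv_rpow (by norm_num)]
      norm_num

/-- the pointwise upper bound -/
lemma pt_up3 {d : ℕ} {s : ℝ} {b : ℝ → ℝ} {c₁ c₂ : ℝ} (hK : Ker d s b c₁ c₂)
    (hα : 0 ≤ ((d : ℝ) - 1) / 2 + s) {γ : ℝ} (ε : ℝ) {c r Z : ℝ} (hr : 0 ≤ r)
    (hrc : r ^ 2 = 2 * (1 - c)) (hZ : 0 < Z) :
    Bt d γ b ε c * ENNReal.ofReal (min 1 (Z ^ 2 * ((1 - c ^ 2) / c ^ 2))) ≤
      ENNReal.ofReal (2 ^ (d - 1) * 2 ^ |2 + γ| *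
        (2 * c₂ * 0.85 ^ (-(((d : ℝ) - 1) / 2 + s)))) *
        ENNReal.ofReal (min 1 ((2 * Z) ^ 2 * r ^ 2) * r ^ (-((d : ℝ) - 1 + 2 * s))) := by
  have hc2 := c2_pos hK
  unfold Bt
  by_cases h0 : 0 < c
  swap
  · rw [if_neg h0, zero_mul]; exact zero_le
  rw [if_pos h0]
  by_cases h2 : c ^ 2 < 1 / 2
  · rw [bt_eq_zero h2, ENNReal.ofReal_zero, mul_zero, zero_mul]; exact zero_le
  push Not at h2
  by_cases h1 : c < 1
  swap
  · have hc1 : c = 1 := by nlinarith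
    rw [hc1]
    norm_num
  have h7 := c_le h0 h2
  have hc2' : c ^ 2 < 1 := by nlinarith
  have hbt := bt_le hK hα ε h2 hc2'
  set α := ((d : ℝ) - 1) / 2 + s with hαd
  have hrpos : 0 < r := by
    rcases hr.lt_or_eq with h | h
    · exact h
    · rw [← h] at hrc; nlinarith
  have e1 : 0.85 * r ^ 2 ≤ 1 - c ^ 2 := by nlinarith
  have e2 : (1 - c ^ 2) ^ (-α) ≤ 0.85 ^ (-α) * r ^ (-((d : ℝ) - 1 + 2 * s)) := by
    have := rpow_le_rpow_of_nonpos (x := 0.85 * r ^ 2) (y := 1 - c ^ 2) (z := -α)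
      (by positivity) e1 (by linarith)
    refine this.trans (le_of_eq ?_)
    rw [mul_rpow (by norm_num) (by positivity), ← rpow_natCast, ← rpow_mul hrpos.le]
    congr 2
    rw [hαd]
    push_cast
    ring
  have e3 : c ^ (-(2 + γ)) ≤ 2 ^ |2 + γ| := by
    have := (cpow (c := c) (by linarith) h1.le (-(2 + γ))).2
    rwa [abs_neg] at this
  have e4 : Z ^ 2 * ((1 - c ^ 2) / c ^ 2) ≤ (2 * Z) ^ 2 * r ^ 2 := by
    have h3 : (1 - c ^ 2) / c ^ 2 ≤ 4 * r ^ 2 := by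
      rw [div_le_iff₀ (by positivity)]
      nlinarith [sq_nonneg r]
    have := mul_le_mul_of_nonneg_left h3 (sq_nonneg Z)
    linarith
  have p1 : (0 : ℝ) ≤ c ^ (-(2 + γ)) := by positivity
  have p2 : (0 : ℝ) ≤ (1 - c ^ 2) ^ (-α) := rpow_nonneg (by linarith) _
  have p3 : (0 : ℝ) ≤ r ^ (-((d : ℝ) - 1 + 2 * s)) := by positivity
  have p4 : 0 ≤ min 1 (Z ^ 2 * ((1 - c ^ 2) / c ^ 2)) := by
    apply le_min zero_le_one
    have : 0 ≤ (1 - c ^ 2) / c ^ 2 := div_nonneg (by linarith) (by positivity)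
    positivity
  have p5 : (0 : ℝ) ≤ (0.85 : ℝ) ^ (-α) := by positivity
  rw [← ENNReal.ofReal_mul (by positivity), ← ENNReal.ofReal_mul' p4,
    ← ENNReal.ofReal_mul (by positivity)]
  apply ENNReal.ofReal_le_ofReal
  calc 2 ^ (d - 1) * c ^ (-(2 + γ)) * bt b ε (2 * c ^ 2 - 1) *
        min 1 (Z ^ 2 * ((1 - c ^ 2) / c ^ 2))
      ≤ 2 ^ (d - 1) * c ^ (-(2 + γ)) * (2 * c₂ * (1 - c ^ 2) ^ (-α)) *
        min 1 (Z ^ 2 * ((1 - c ^ 2) / c ^ 2)) := by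
        gcongr
    _ ≤ 2 ^ (d - 1) * 2 ^ |2 + γ| * (2 * c₂ * (0.85 ^ (-α) * r ^ (-((d : ℝ) - 1 + 2 * s)))) *
        min 1 ((2 * Z) ^ 2 * r ^ 2) := by
        gcongr
    _ = _ := by ring

/-- the pointwise lower bound on the annulus -/
lemma pt_low3 {d : ℕ} {s : ℝ} {b : ℝ → ℝ} {c₁ c₂ : ℝ} (hK : Ker d s b c₁ c₂)
    (hα : 0 ≤ ((d : ℝ) - 1) / 2 + s) {γ : ℝ} {ε t : ℝ} (ht : 0 < t)
    (hε : ε < t ^ 2) {c r q : ℝ} (htr : t ≤ r) (hr2 : r ≤ 1 / 2)
    (hrc : r ^ 2 = 2 * (1 - c)) (hq : 18 / t ^ 2 ≤ q) :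
    ENNReal.ofReal (2 ^ (d - 1) * (1 / 2) ^ |2 + γ| * c₁ / 2) * ENNReal.ofReal (r ^ (-((d : ℝ) - 1 + 2 * s))) ≤
      Bt d γ b ε c * ENNReal.ofReal (1 - (1 + (1 - c ^ 2) / (8 * c ^ 2)) ^ (-(q / 2))) := by
  have hc1 := hK.pos
  have hr : 0 < r := by linarith
  have hrr : r ^ 2 ≤ 1 / 4 := by nlinarith
  have htt : t ^ 2 ≤ r ^ 2 := by nlinarith
  have h78 : 7 / 8 ≤ c := by linarith
  have hcl : c < 1 := by nlinarith [pow_pos hr 2]
  have h0 : 0 < c := by linarith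
  have e0 : 1 - c ^ 2 = r ^ 2 / 2 * (1 + c) := by rw [hrc]; ring
  have e1 : 15 / 16 * r ^ 2 ≤ 1 - c ^ 2 := by rw [e0]; nlinarith [pow_pos hr 2]
  have e2 : 1 - c ^ 2 ≤ r ^ 2 := by rw [e0]; nlinarith [pow_pos hr 2]
  have hc2 : 49 / 64 ≤ c ^ 2 := by nlinarith
  set α := ((d : ℝ) - 1) / 2 + s with hαd
  have hbt : c₁ * r ^ (-((d : ℝ) - 1 + 2 * s)) ≤ bt b ε (2 * c ^ 2 - 1) := by
    unfold bt
    rw [if_pos (by linarith), if_pos (by nlinarith [pow_pos ht 2])]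
    have u1 := hK.low (2 * c ^ 2 - 1) (by linarith) (by linarith [pow_pos hr 2])
    rw [show (1 - (2 * c ^ 2 - 1)) / 2 = 1 - c ^ 2 by ring] at u1
    have u2 := b_nonneg hK (z := -(2 * c ^ 2 - 1)) (by nlinarith) (by linarith)
    have u3 : r ^ (-((d : ℝ) - 1 + 2 * s)) ≤ (1 - c ^ 2) ^ (-α) := by
      have := rpow_le_rpow_of_nonpos (x := 1 - c ^ 2) (y := r ^ 2) (z := -α)
        (by nlinarith [pow_pos hr 2]) e2 (by linarith)
      refine le_trans (le_of_eq ?_) this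
      rw [← rpow_natCast, ← rpow_mul hr.le]
      congr 1
      rw [hαd]
      push_cast
      ring
    have u4 := mul_le_mul_of_nonneg_left u3 hc1.le
    linarith
  have hcp : (1 / 2) ^ |2 + γ| ≤ c ^ (-(2 + γ)) := by
    have := (cpow (c := c) (by linarith) hcl.le (-(2 + γ))).1
    rwa [abs_neg] at this
  have ht2 : 0 < t ^ 2 := by positivity
  have hhalf : 1 / 2 ≤ 1 - (1 + (1 - c ^ 2) / (8 * c ^ 2)) ^ (-(q / 2)) := by
    have k1 : t ^ 2 / 9 ≤ (1 - c ^ 2) / (8 * c ^ 2) := by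
      rw [le_div_iff₀ (by positivity)]
      nlinarith
    have k2 : 1 ≤ q / 2 := by
      have : 2 ≤ 18 / t ^ 2 := by
        rw [le_div_iff₀ ht2]; nlinarith
      linarith
    have k3 := one_add_mul_self_le_rpow_one_add (s := t ^ 2 / 9) (by linarith) k2
    have k4 : 1 ≤ q / 2 * (t ^ 2 / 9) := by
      have := mul_le_mul_of_nonneg_right hq ht2.le
      rw [div_mul_cancel₀ _ ht2.ne'] at this
      linarith
    have k5 : (1 + (1 - c ^ 2) / (8 * c ^ 2)) ^ (-(q / 2)) ≤ (1 + t ^ 2 / 9) ^ (-(q / 2)) :=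
      rpow_le_rpow_of_nonpos (by positivity) (by linarith) (by linarith)
    have k6 : (1 + t ^ 2 / 9) ^ (-(q / 2)) ≤ 1 / 2 := by
      rw [rpow_neg (by positivity), ← one_div]
      apply one_div_le_one_div_of_le (by norm_num)
      linarith
    linarith
  unfold Bt
  rw [if_pos h0, ← ENNReal.ofReal_mul (by positivity), ← ENNReal.ofReal_mul (by positivity),
    ← ENNReal.ofReal_mul' (by linarith)]
  apply ENNReal.ofReal_le_ofReal
  have p3 : (0 : ℝ) ≤ r ^ (-((d : ℝ) - 1 + 2 * s)) := by positivity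
  have p6 : 0 ≤ bt b ε (2 * c ^ 2 - 1) := le_trans (by positivity) hbt
  calc 2 ^ (d - 1) * (1 / 2) ^ |2 + γ| * c₁ / 2 * r ^ (-((d : ℝ) - 1 + 2 * s))
      = 2 ^ (d - 1) * (1 / 2) ^ |2 + γ| * (c₁ * r ^ (-((d : ℝ) - 1 + 2 * s))) * (1 / 2) := by ring
    _ ≤ 2 ^ (d - 1) * c ^ (-(2 + γ)) * bt b ε (2 * c ^ 2 - 1) *
        (1 - (1 + (1 - c ^ 2) / (8 * c ^ 2)) ^ (-(q / 2))) := by
        gcongr

/-- **BB3** -/
theorem t_BB3 : S_SP → S_BB3 := by
  intro hSP d hd s hs hs1 γ b c₁ c₂ hK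
  have hd' : (2 : ℝ) ≤ d := by exact_mod_cast hd
  have hα : 0 ≤ ((d : ℝ) - 1) / 2 + s := by linarith
  have hc1 := hK.pos
  have hc2 := c2_pos hK
  obtain ⟨⟨C, hC, hSPa⟩, hSPb⟩ := hSP d hd s hs hs1
  refine ⟨?_, ?_, ?_⟩
  · set A : ℝ := 2 ^ (d - 1) * 2 ^ |2 + γ| * (2 * c₂ * 0.85 ^ (-(((d : ℝ) - 1) / 2 + s))) with hA
    have hA0 : 0 < A := by positivity
    refine ⟨A * (C * 2 ^ (2 * s)), by positivity, fun ε _ _ n hn Z hZ => ?_⟩
    calc ∫⁻ σ : Sd d, Bt d γ b ε (ip n σ) *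
          ENNReal.ofReal (min 1 (Z ^ 2 * ((1 - ip n σ ^ 2) / ip n σ ^ 2))) ∂(mS d)
        ≤ ∫⁻ σ : Sd d, ENNReal.ofReal A * ENNReal.ofReal (min 1 ((2 * Z) ^ 2 *
          ‖(σ : E d) - n‖ ^ 2) * ‖(σ : E d) - n‖ ^ (-((d : ℝ) - 1 + 2 * s))) ∂(mS d) := by
          refine lintegral_mono fun σ => ?_
          have hσ : ‖(σ : E d)‖ = 1 := by simp
          exact pt_up3 hK hα ε (norm_nonneg _) (dist_sq hn hσ).1 hZ
      _ = ENNReal.ofReal A * ∫⁻ σ : Sd d, ENNReal.ofReal (min 1 ((2 * Z) ^ 2 *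
          ‖(σ : E d) - n‖ ^ 2) * ‖(σ : E d) - n‖ ^ (-((d : ℝ) - 1 + 2 * s))) ∂(mS d) :=
          lintegral_const_mul' _ _ ENNReal.ofReal_ne_top
      _ ≤ ENNReal.ofReal A * ENNReal.ofReal (C * (2 * Z) ^ (2 * s)) :=
          mul_le_mul_right (hSPa n hn (2 * Z) (by positivity)) _
      _ = ENNReal.ofReal (A * (C * 2 ^ (2 * s)) * Z ^ (2 * s)) := by
          rw [← ENNReal.ofReal_mul hA0.le, mul_rpow (by norm_num) hZ.le]
          congr 1
          ring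
  · intro K
    set a : ℝ := 2 ^ (d - 1) * (1 / 2) ^ |2 + γ| * c₁ / 2 with ha
    have ha0 : 0 < a := by positivity
    obtain ⟨t, ht, ht2, hb⟩ := hSPb (K / a)
    have htt : t ^ 2 < 1 := by nlinarith
    refine ⟨18 / t ^ 2, by positivity, fun q hq => ⟨t ^ 2, by positivity, htt,
      fun ε _ hε n hn => ?_⟩⟩
    calc ENNReal.ofReal K = ENNReal.ofReal a * ENNReal.ofReal (K / a) := by
          rw [← ENNReal.ofReal_mul ha0.le, mul_div_cancel₀ _ ha0.ne']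
      _ ≤ ENNReal.ofReal a * ∫⁻ σ : Sd d, (if t ≤ ‖(σ : E d) - n‖ ∧ ‖(σ : E d) - n‖ ≤ 1 / 2 then
          ENNReal.ofReal (‖(σ : E d) - n‖ ^ (-((d : ℝ) - 1 + 2 * s))) else 0) ∂(mS d) :=
          mul_le_mul_right (hb n hn) _
      _ ≤ ∫⁻ σ : Sd d, ENNReal.ofReal a * (if t ≤ ‖(σ : E d) - n‖ ∧ ‖(σ : E d) - n‖ ≤ 1 / 2 then
          ENNReal.ofReal (‖(σ : E d) - n‖ ^ (-((d : ℝ) - 1 + 2 * s))) else 0) ∂(mS d) :=
          lintegral_const_mul_le _ _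
      _ ≤ _ := by
          refine lintegral_mono fun σ => ?_
          have hσ : ‖(σ : E d)‖ = 1 := by simp
          split_ifs with h
          · exact pt_low3 hK hα ht hε h.1 h.2 (dist_sq hn hσ).1 hq
          · rw [mul_zero]; exact zero_le
  · intro ε hε _
    set B : ℝ := c₂ * (ε / 2) ^ (-(((d : ℝ) - 1) / 2 + s)) +
      c₂ * (1 / 2) ^ (-(((d : ℝ) - 1) / 2 + s)) with hB
    have hB0 : 0 ≤ B := by positivity
    have hfin : mS d univ ≠ ∞ := by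
      unfold mS
      exact measure_ne_top _ _
    refine ⟨2 ^ (d - 1) * 2 ^ |2 + γ| * B * (mS d univ).toReal + 1, by positivity,
      fun n hn => ?_⟩
    calc ∫⁻ σ : Sd d, Bt d γ b ε (ip n σ) ∂(mS d)
        ≤ ∫⁻ _σ : Sd d, ENNReal.ofReal (2 ^ (d - 1) * 2 ^ |2 + γ| * B) ∂(mS d) := by
          refine lintegral_mono fun σ => ?_
          have hσ : ‖(σ : E d)‖ = 1 := by simp
          have hle := (dist_sq hn hσ).2
          unfold Bt
          by_cases h0 : 0 < ip n (σ : E d)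
          swap
          · rw [if_neg h0]; exact zero_le
          rw [if_pos h0]
          by_cases h2 : ip n (σ : E d) ^ 2 < 1 / 2
          · rw [bt_eq_zero h2, ENNReal.ofReal_zero, mul_zero]; exact zero_le
          push Not at h2
          have h7 := c_le h0 h2
          have e3 : ip n (σ : E d) ^ (-(2 + γ)) ≤ 2 ^ |2 + γ| := by
            have := (cpow (c := ip n (σ : E d)) (by linarith) hle (-(2 + γ))).2
            rwa [abs_neg] at this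
          have e4 : bt b ε (2 * ip n (σ : E d) ^ 2 - 1) ≤ B :=
            bt_bdd hK hα hε (by nlinarith)
          rw [← ENNReal.ofReal_mul (by positivity)]
          apply ENNReal.ofReal_le_ofReal
          calc 2 ^ (d - 1) * ip n (σ : E d) ^ (-(2 + γ)) * bt b ε (2 * ip n (σ : E d) ^ 2 - 1)
              ≤ 2 ^ (d - 1) * ip n (σ : E d) ^ (-(2 + γ)) * B := by gcongr
            _ ≤ 2 ^ (d - 1) * 2 ^ |2 + γ| * B := by gcongr
      _ = ENNReal.ofReal (2 ^ (d - 1) * 2 ^ |2 + γ| * B) * mS d univ := by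
          rw [lintegral_const]
      _ = ENNReal.ofReal (2 ^ (d - 1) * 2 ^ |2 + γ| * B * (mS d univ).toReal) := by
          rw [ENNReal.ofReal_mul (p := 2 ^ (d - 1) * 2 ^ |2 + γ| * B) (by positivity),
            ENNReal.ofReal_toReal hfin]
      _ ≤ _ := ENNReal.ofReal_le_ofReal (by linarith)

end Pool.Agent.L7h65.BI
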