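import Pool.Agent.L7h65.BI.Bb

/-!
# Project BI, part GB: the gain with slow `v'`
-/

set_option autoImplicit false

open MeasureTheory Set Filter Topology Real
open scoped ENNReal

namespace Pool.Agent.L7h65.BI

open Pool.Agent.L7h99.BI

lemma bt_meas {b : ℝ → ℝ} (hb : Measurable b) (ε : ℝ) : Measurable (bt b ε) := by
  unfold bt
  exact Measurable.ite measurableSet_Ioi ((Measurable.ite measurableSet_Iio hb
    measurable_const).add (hb.comp measurable_neg))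
    (Measurable.ite (measurableSet_singleton 0) measurable_const measurable_const)

/-- `z = 1 - 2 c²` -/
lemma bt_le' {d : ℕ} {s : ℝ} {b : ℝ → ℝ} {c₁ c₂ : ℝ} (hK : Ker d s b c₁ c₂)
    (hα : 0 ≤ ((d : ℝ) - 1) / 2 + s) (ε : ℝ) {c : ℝ}
    (h0 : 0 < c) (h2 : c ^ 2 ≤ 1 / 2) :
    bt b ε (1 - 2 * c ^ 2) ≤ 2 * c₂ * (c ^ 2) ^ (-(((d : ℝ) - 1) / 2 + s)) := by
  have hc2 := c2_pos hK
  have hcc : 0 < c ^ 2 := by positivity
  set α := ((d : ℝ) - 1) / 2 + s with hαd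
  have hp : 0 < (c ^ 2) ^ (-α) := rpow_pos_of_pos hcc _
  have u1 : b (1 - 2 * c ^ 2) ≤ c₂ * (c ^ 2) ^ (-α) := by
    have := hK.upp (1 - 2 * c ^ 2) (by linarith) (by linarith)
    rwa [show (1 - (1 - 2 * c ^ 2)) / 2 = c ^ 2 by ring] at this
  have u2 : b (-(1 - 2 * c ^ 2)) ≤ c₂ * (c ^ 2) ^ (-α) := by
    have := hK.upp (-(1 - 2 * c ^ 2)) (by linarith) (by linarith)
    rw [show (1 - -(1 - 2 * c ^ 2)) / 2 = 1 - c ^ 2 by ring] at this
    refine this.trans (mul_le_mul_of_nonneg_left ?_ hc2.le)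
    exact rpow_le_rpow_of_nonpos hcc (by linarith) (by linarith)
  have hq : 0 < c₂ * (c ^ 2) ^ (-α) := mul_pos hc2 hp
  unfold bt
  split_ifs with g1 g2 g3
  · linarith
  · linarith
  · rw [← g3]; linarith
  · linarith

lemma bt_eq_zero' {b : ℝ → ℝ} {ε c : ℝ} (h2 : 1 / 2 < c ^ 2) : bt b ε (1 - 2 * c ^ 2) = 0 := by
  unfold bt
  rw [if_neg (by linarith), if_neg (by intro h; linarith)]

/-- the size of `v'_*` -/
lemma vq_low {d : ℕ} {v y σ : E d} (hσ : ‖σ‖ = 1) (hip : 0 < ip y σ)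
    (hu : ‖v - y‖ < ‖v‖ / 20) (hc : (ip y σ / ‖y‖) ^ 2 ≤ 1 / 2) :
    0.9 * ‖v‖ ≤ (ip y σ / ‖y‖) * ‖vq v y σ‖ := by
  have hy0 : y ≠ 0 := by
    rintro rfl
    unfold ip at hip
    rw [inner_zero_left] at hip
    exact lt_irrefl _ hip
  have hy : 0 < ‖y‖ := norm_pos_iff.2 hy0
  set c := ip y σ / ‖y‖ with hcd
  have hc0 : 0 < c := div_pos hip hy
  have hc1 : c ≤ 1 := by nlinarith
  have h1 : ‖v‖ - ‖v - y‖ ≤ ‖y‖ := by
    have := norm_sub_norm_le v (v - y)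
    rw [sub_sub_cancel] at this
    exact this
  have h2 : ‖y‖ ^ 2 / ip y σ = ‖y‖ / c := by
    rw [hcd]
    field_simp
  have h3 : ‖y‖ / c - ‖v - y‖ ≤ ‖vq v y σ‖ := by
    unfold vq
    rw [h2]
    have h4 : ‖(‖y‖ / c) • σ‖ = ‖y‖ / c := by
      rw [norm_smul, hσ, mul_one, Real.norm_eq_abs, abs_of_pos (by positivity)]
    have h5 := norm_sub_norm_le ((‖y‖ / c) • σ) (-(v - y))
    rw [h4, norm_neg, sub_neg_eq_add, add_comm ((‖y‖ / c) • σ)] at h5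
    exact h5
  have h6 := mul_le_mul_of_nonneg_left h3 hc0.le
  rw [mul_sub, mul_div_cancel₀ _ hc0.ne'] at h6
  have h7 : c * ‖v - y‖ ≤ ‖v - y‖ := by
    have := norm_nonneg (v - y)
    nlinarith
  linarith

/-- the barrier at `v'_*` -/
lemma ph_le {d : ℕ} {v a : E d} {c q : ℝ} (hv : 10 ≤ ‖v‖) (hc0 : 0 < c) (hq : 0 ≤ q)
    (h : 0.9 * ‖v‖ ≤ c * ‖a‖) :
    ph q a ≤ (1.01 / 0.81 * c ^ 2) ^ (q / 2) * ph q v := by
  unfold ph
  have hcc : 0 < c ^ 2 := by positivity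
  have h1 : (0.81 / (1.01 * c ^ 2)) * (1 + ‖v‖ ^ 2) ≤ 1 + ‖a‖ ^ 2 := by
    rw [div_mul_eq_mul_div, div_le_iff₀ (by positivity)]
    have h2 : (0.9 * ‖v‖) ^ 2 ≤ (c * ‖a‖) ^ 2 := pow_le_pow_left₀ (by positivity) h 2
    have h3 : 1 + ‖v‖ ^ 2 ≤ 1.01 * ‖v‖ ^ 2 := by nlinarith
    nlinarith
  have h2 := rpow_le_rpow_of_nonpos (x := (0.81 / (1.01 * c ^ 2)) * (1 + ‖v‖ ^ 2))
    (y := 1 + ‖a‖ ^ 2) (z := -(q / 2)) (by positivity) h1 (by linarith)
  refine h2.trans (le_of_eq ?_)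
  rw [mul_rpow (by positivity) (by positivity)]
  congr 1
  rw [rpow_neg (by positivity), ← inv_rpow (by positivity)]
  congr 1
  rw [inv_div]
  ring

/-- the powers of `c` -/
lemma pw_le {c γ α q : ℝ} (hc0 : 0 < c) (h2 : c ^ 2 ≤ 1 / 2)
    (hq : (2 + γ) / 2 + α ≤ q / 2) :
    c ^ (-(2 + γ)) * (c ^ 2) ^ (-α) * (1.01 / 0.81 * c ^ 2) ^ (q / 2) ≤
      (1.01 / 0.81) ^ ((2 + γ) / 2 + α) := by
  have hcc : 0 < c ^ 2 := by positivity
  have e1 : c ^ (-(2 + γ)) = (c ^ 2) ^ (-((2 + γ) / 2)) := by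
    rw [← rpow_natCast c 2, ← rpow_mul hc0.le]
    congr 1
    push_cast
    ring
  have e2 : c ^ (-(2 + γ)) * (c ^ 2) ^ (-α) = (c ^ 2) ^ (-((2 + γ) / 2 + α)) := by
    rw [e1, ← rpow_add hcc]
    congr 1
    ring
  have e3 : (1.01 / 0.81 * c ^ 2) ^ (q / 2) ≤ (1.01 / 0.81 * c ^ 2) ^ ((2 + γ) / 2 + α) :=
    rpow_le_rpow_of_exponent_ge (by positivity) (by linarith) hq
  rw [e2]
  calc (c ^ 2) ^ (-((2 + γ) / 2 + α)) * (1.01 / 0.81 * c ^ 2) ^ (q / 2)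
      ≤ (c ^ 2) ^ (-((2 + γ) / 2 + α)) * (1.01 / 0.81 * c ^ 2) ^ ((2 + γ) / 2 + α) :=
        mul_le_mul_of_nonneg_left e3 (by positivity)
    _ = (1.01 / 0.81) ^ ((2 + γ) / 2 + α) := by
        rw [mul_rpow (by norm_num) hcc.le, mul_left_comm, ← rpow_add hcc, neg_add_cancel, rpow_zero,
          mul_one]

/-- **GB** -/
theorem t_GB : S_GB := by
  intro hG d hd s hs hs1 γ hγ b c₁ c₂ hK
  have hd' : (2 : ℝ) ≤ d := by exact_mod_cast hd
  have hα : 0 ≤ ((d : ℝ) - 1) / 2 + s := by linarith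
  have hc2 := c2_pos hK
  set α := ((d : ℝ) - 1) / 2 + s with hαd
  set β := (2 + γ) / 2 + α with hβd
  have hβ : 1 ≤ β := by rw [hβd]; linarith
  have hfin : mS d univ ≠ ∞ := by
    unfold mS
    exact measure_ne_top _ _
  set C₀ : ℝ := 2 ^ γ * 2 ^ (d - 1) * (2 * c₂) * (1.01 / 0.81) ^ β with hC₀
  have hC₀0 : 0 < C₀ := by positivity
  refine ⟨C₀ * (mS d univ).toReal + 1, 2 * β, by positivity, by positivity,
    fun q hq ε hε hε1 F m hF hF0 hm hFm v hv => ?_⟩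
  have hphv : 0 < ph q v := by unfold ph; positivity
  have hv0 : 0 < ‖v‖ := by linarith
  set g : E d → ℝ≥0∞ := fun u => if ‖u‖ < ‖v‖ / 20 then ENNReal.ofReal (F u) else 0 with hg
  have hgm : Measurable g :=
    Measurable.ite (measurableSet_lt measurable_norm measurable_const)
      (ENNReal.measurable_ofReal.comp hF) measurable_const
  obtain ⟨h1, h2⟩ := hG d hd γ hγ (fun z => ENNReal.ofReal (bt b ε z))
    (ENNReal.measurable_ofReal.comp (bt_meas hK.meas ε))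
    (fun p => ENNReal.ofReal (F p.1) * g p.2)
    ((ENNReal.measurable_ofReal.comp (hF.comp measurable_fst)).mul (hgm.comp measurable_snd)) v
  rw [h1] at h2
  clear h1
  have hL : ∫⁻ y : E d, ENNReal.ofReal (F (v - y) * ‖y‖ ^ γ) *
      (∫⁻ σ : Sd d, Bt d γ b ε (ip y σ / ‖y‖) *
        (if ‖vq v y σ‖ < ‖v‖ / 20 then ENNReal.ofReal (F (vq v y σ)) else 0) ∂(mS d)) =
      ∫⁻ y : E d, ∫⁻ σ : Sd d, (if 0 < ip y σ then ENNReal.ofReal (‖y‖ ^ γ) *
      (ENNReal.ofReal (2 ^ (d - 1) * (ip y σ / ‖y‖) ^ (-(2 + γ))) *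
        ENNReal.ofReal (bt b ε (2 * (ip y σ / ‖y‖) ^ 2 - 1))) *
          (ENNReal.ofReal (F (v - y)) * g (vq v y σ)) else 0) ∂(mS d) := by
    refine lintegral_congr fun y => ?_
    rw [← lintegral_const_mul' _ _ ENNReal.ofReal_ne_top]
    refine lintegral_congr fun σ => ?_
    have hiff : 0 < ip y (σ : E d) / ‖y‖ ↔ 0 < ip y (σ : E d) := by
      constructor
      · intro h
        by_contra hcon
        push Not at hcon
        exact absurd h (not_lt.2 (div_nonpos_of_nonpos_of_nonneg hcon (norm_nonneg _)))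
      · intro h
        refine div_pos h (norm_pos_iff.2 ?_)
        rintro rfl
        unfold ip at h
        rw [inner_zero_left] at h
        exact lt_irrefl _ h
    unfold Bt
    by_cases h0 : 0 < ip y (σ : E d)
    · rw [if_pos (hiff.2 h0), if_pos h0, ENNReal.ofReal_mul (hF0 _)]
      simp only [hg]
      ring
    · rw [if_neg (fun h => h0 (hiff.1 h)), if_neg h0, zero_mul, mul_zero]
  rw [hL, h2]
  have hM : ∀ (y : E d) (σ : Sd d), (if 0 < ip y σ then ENNReal.ofReal (‖y‖ ^ γ) *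
      (ENNReal.ofReal (2 ^ (d - 1) * (ip y σ / ‖y‖) ^ (-(2 + γ))) *
        ENNReal.ofReal (bt b ε (1 - 2 * (ip y σ / ‖y‖) ^ 2))) *
          (ENNReal.ofReal (F (vq v y σ)) * g (v - y)) else 0) ≤
      ENNReal.ofReal (C₀ * (m * ph q v * ‖v‖ ^ γ)) * g (v - y) := by
    intro y σ
    have hσ : ‖(σ : E d)‖ = 1 := by simp
    by_cases h0 : 0 < ip y (σ : E d)
    swap
    · rw [if_neg h0]; exact zero_le
    rw [if_pos h0]
    by_cases hu : ‖v - y‖ < ‖v‖ / 20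
    swap
    · simp only [hg]
      rw [if_neg hu, mul_zero, mul_zero]
      exact zero_le
    have hy0 : y ≠ 0 := by
      rintro rfl
      unfold ip at h0
      rw [inner_zero_left] at h0
      exact lt_irrefl _ h0
    have hy : 0 < ‖y‖ := norm_pos_iff.2 hy0
    have hc0 : 0 < ip y (σ : E d) / ‖y‖ := div_pos h0 hy
    by_cases hc : (ip y (σ : E d) / ‖y‖) ^ 2 ≤ 1 / 2
    swap
    · push Not at hc
      rw [bt_eq_zero' hc, ENNReal.ofReal_zero, mul_zero, mul_zero, zero_mul]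
      exact zero_le
    have k1 := vq_low hσ h0 hu hc
    have k2 := ph_le (q := q) hv hc0 (by linarith) k1
    have k3 := bt_le' hK hα ε hc0 hc
    have k4 := pw_le (α := α) (γ := γ) (q := q) hc0 hc (by linarith)
    set c := ip y (σ : E d) / ‖y‖ with hcd
    have k5 : ‖y‖ ^ γ ≤ 2 ^ γ * ‖v‖ ^ γ := by
      rw [← mul_rpow (by norm_num) hv0.le]
      apply rpow_le_rpow hy.le _ hγ
      have := norm_sub_le v (v - y)
      rw [sub_sub_cancel] at this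
      linarith
    have k6 : F (vq v y σ) ≤ m * ((1.01 / 0.81 * c ^ 2) ^ (q / 2) * ph q v) :=
      (hFm _).trans (mul_le_mul_of_nonneg_left k2 hm.le)
    rw [← mul_assoc]
    refine mul_le_mul_left ?_ _
    rw [← ENNReal.ofReal_mul (by positivity), ← ENNReal.ofReal_mul (by positivity),
      ← ENNReal.ofReal_mul' (hF0 _)]
    apply ENNReal.ofReal_le_ofReal
    have p1 : (0 : ℝ) ≤ c ^ (-(2 + γ)) := by positivity
    have p2 : (0 : ℝ) ≤ (c ^ 2) ^ (-α) := by positivity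
    calc ‖y‖ ^ γ * (2 ^ (d - 1) * c ^ (-(2 + γ)) * bt b ε (1 - 2 * c ^ 2)) * F (vq v y σ)
        ≤ ‖y‖ ^ γ * (2 ^ (d - 1) * c ^ (-(2 + γ)) * (2 * c₂ * (c ^ 2) ^ (-α))) *
            F (vq v y σ) := by
          have := hF0 (vq v y σ)
          gcongr
      _ ≤ (2 ^ γ * ‖v‖ ^ γ) * (2 ^ (d - 1) * c ^ (-(2 + γ)) * (2 * c₂ * (c ^ 2) ^ (-α))) *
            (m * ((1.01 / 0.81 * c ^ 2) ^ (q / 2) * ph q v)) := by
          have := hF0 (vq v y σ)
          gcongr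
      _ = (2 ^ γ * 2 ^ (d - 1) * (2 * c₂)) * (c ^ (-(2 + γ)) * (c ^ 2) ^ (-α) *
            (1.01 / 0.81 * c ^ 2) ^ (q / 2)) * (m * ph q v * ‖v‖ ^ γ) := by ring
      _ ≤ (2 ^ γ * 2 ^ (d - 1) * (2 * c₂)) * (1.01 / 0.81) ^ β * (m * ph q v * ‖v‖ ^ γ) := by
          gcongr
      _ = C₀ * (m * ph q v * ‖v‖ ^ γ) := by rw [hC₀]
  calc _ ≤ ∫⁻ y : E d, ∫⁻ _σ : Sd d, ENNReal.ofReal (C₀ * (m * ph q v * ‖v‖ ^ γ)) * g (v - y)
        ∂(mS d) := lintegral_mono fun y => lintegral_mono fun σ => hM y σ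
    _ = ∫⁻ y : E d, (ENNReal.ofReal (C₀ * (m * ph q v * ‖v‖ ^ γ)) * mS d univ) * g (v - y) := by
        refine lintegral_congr fun y => ?_
        rw [lintegral_const]
        ring
    _ = (ENNReal.ofReal (C₀ * (m * ph q v * ‖v‖ ^ γ)) * mS d univ) * ∫⁻ y : E d, g (v - y) :=
        lintegral_const_mul' _ _ (ENNReal.mul_ne_top ENNReal.ofReal_ne_top hfin)
    _ = (ENNReal.ofReal (C₀ * (m * ph q v * ‖v‖ ^ γ)) * mS d univ) * ∫⁻ u : E d, g u := by
        rw [lintegral_sub_left_eq_self g v]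
    _ ≤ _ := by
        refine mul_le_mul_left ?_ _
        rw [← ENNReal.ofReal_toReal hfin, ← ENNReal.ofReal_mul (by positivity)]
        apply ENNReal.ofReal_le_ofReal
        rw [ENNReal.toReal_ofReal ENNReal.toReal_nonneg]
        have : 0 ≤ m * ph q v * ‖v‖ ^ γ := by positivity
        nlinarith

end Pool.Agent.L7h65.BI
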