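import Pool.Agent.L7h65.BI.Gb
import Pool.Agent.L7h99.BI.Stm3

/-!
# Project BI3, part GB3: the gain with slow velocity, every real exponent
-/

set_option autoImplicit false

open MeasureTheory Set Filter Topology Real
open scoped ENNReal

namespace Pool.Agent.L7h65.BI

open Pool.Agent.L7h99.BI

/-- **GB3** -/
theorem t_GB3 : S_GB3 := by
  intro hG d hd s hs hs1 γ b c₁ c₂ hK
  have hd' : (2 : ℝ) ≤ d := by exact_mod_cast hd
  have hα : 0 ≤ ((d : ℝ) - 1) / 2 + s := by linarith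
  have hc2 := c2_pos hK
  set α := ((d : ℝ) - 1) / 2 + s with hαd
  set β := (2 + γ) / 2 + α with hβd
  have hfin : mS d univ ≠ ∞ := by
    unfold mS
    exact measure_ne_top _ _
  set C₀ : ℝ := 2 ^ |γ| * 2 ^ (d - 1) * (2 * c₂) * (1.01 / 0.81) ^ β with hC₀
  have hC₀0 : 0 < C₀ := by positivity
  refine ⟨C₀ * (mS d univ).toReal + 1, max (2 * β) 1, by positivity, by positivity,
    fun q hq' ε hε hε1 F m hF hF0 hm hFm v hv => ?_⟩
  have hq : 2 * β ≤ q := (le_max_left _ _).trans hq'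
  have hq1 : 1 ≤ q := (le_max_right _ _).trans hq'
  have hphv : 0 < ph q v := by unfold ph; positivity
  have hv0 : 0 < ‖v‖ := by linarith
  set g : E d → ℝ≥0∞ := fun u => if ‖u‖ < ‖v‖ / 20 then ENNReal.ofReal (F u) else 0 with hg
  have hgm : Measurable g :=
    Measurable.ite (measurableSet_lt measurable_norm measurable_const)
      (ENNReal.measurable_ofReal.comp hF) measurable_const
  obtain ⟨h1, h2⟩ := hG d hd γ (fun z => ENNReal.ofReal (bt b ε z))
    (ENNReal.measurable_ofReal.comp (bt_meas hK.meas ε))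
    (fun p => ENNReal.ofReal (F p.1) * g p.2)
    ((ENNReal.measurable_ofReal.comp (hF.comp measurable_fst)).mul (hgm.comp measurable_snd)) v
  rw [h1] at h2
  clear h1
  have hL : ∫⁻ y : E d, ENNReal.ofReal (F (v - y) * ‖y‖ ^ γ) *
      (∫⁻ σ : Sd d, Bt d γ b ε (ip y σ / ‖y‖) *
        (if ‖vq v y σ‖ < ‖v‖ / 20 then ENNReal.ofReal (F (vq v y σ)) else 0) ∂(mS d)) =
      ∫⁻ y : E d, ∫⁻ σ : Sd d, (if 0 < ip y σ then ENNReal.ofReal (‖y‖ ^ γ) *
      (ENNReal.ofReal (2 ^ (d - 1) * (ip y σ / ‖y‖) ^ (-(2 + γ))) *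
        ENNReal.ofReal (bt b ε (2 * (ip y σ / ‖y‖) ^ 2 - 1))) *
          (ENNReal.ofReal (F (v - y)) * g (vq v y σ)) else 0) ∂(mS d) := by
    refine lintegral_congr fun y => ?_
    rw [← lintegral_const_mul' _ _ ENNReal.ofReal_ne_top]
    refine lintegral_congr fun σ => ?_
    have hiff : 0 < ip y (σ : E d) / ‖y‖ ↔ 0 < ip y (σ : E d) := by
      constructor
      · intro h
        by_contra hcon
        push Not at hcon
        exact absurd h (not_lt.2 (div_nonpos_of_nonpos_of_nonneg hcon (norm_nonneg _)))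
      · intro h
        refine div_pos h (norm_pos_iff.2 ?_)
        rintro rfl
        unfold ip at h
        rw [inner_zero_left] at h
        exact lt_irrefl _ h
    unfold Bt
    by_cases h0 : 0 < ip y (σ : E d)
    · rw [if_pos (hiff.2 h0), if_pos h0, ENNReal.ofReal_mul (hF0 _)]
      simp only [hg]
      ring
    · rw [if_neg (fun h => h0 (hiff.1 h)), if_neg h0, zero_mul, mul_zero]
  rw [hL, h2]
  have hM : ∀ (y : E d) (σ : Sd d), (if 0 < ip y σ then ENNReal.ofReal (‖y‖ ^ γ) *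
      (ENNReal.ofReal (2 ^ (d - 1) * (ip y σ / ‖y‖) ^ (-(2 + γ))) *
        ENNReal.ofReal (bt b ε (1 - 2 * (ip y σ / ‖y‖) ^ 2))) *
          (ENNReal.ofReal (F (vq v y σ)) * g (v - y)) else 0) ≤
      ENNReal.ofReal (C₀ * (m * ph q v * ‖v‖ ^ γ)) * g (v - y) := by
    intro y σ
    have hσ : ‖(σ : E d)‖ = 1 := by simp
    by_cases h0 : 0 < ip y (σ : E d)
    swap
    · rw [if_neg h0]; exact zero_le
    rw [if_pos h0]
    by_cases hu : ‖v - y‖ < ‖v‖ / 20
    swap
    · simp only [hg]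
      rw [if_neg hu, mul_zero, mul_zero]
      exact zero_le
    have hy0 : y ≠ 0 := by
      rintro rfl
      unfold ip at h0
      rw [inner_zero_left] at h0
      exact lt_irrefl _ h0
    have hy : 0 < ‖y‖ := norm_pos_iff.2 hy0
    have hc0 : 0 < ip y (σ : E d) / ‖y‖ := div_pos h0 hy
    by_cases hc : (ip y (σ : E d) / ‖y‖) ^ 2 ≤ 1 / 2
    swap
    · push Not at hc
      rw [bt_eq_zero' hc, ENNReal.ofReal_zero, mul_zero, mul_zero, zero_mul]
      exact zero_le
    have k1 := vq_low hσ h0 hu hc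
    have k2 := ph_le (q := q) hv hc0 (by linarith) k1
    have k3 := bt_le' hK hα ε hc0 hc
    have k4 := pw_le (α := α) (γ := γ) (q := q) hc0 hc (by linarith)
    set c := ip y (σ : E d) / ‖y‖ with hcd
    have k5 : ‖y‖ ^ γ ≤ 2 ^ |γ| * ‖v‖ ^ γ := by
      have n1 := norm_sub_le v (v - y)
      rw [sub_sub_cancel] at n1
      have n2 := norm_sub_norm_le v (v - y)
      rw [sub_sub_cancel] at n2
      have n3 : ‖y‖ = ‖v‖ * (‖y‖ / ‖v‖) := by field_simp
      have n4 : 1 / 2 ≤ ‖y‖ / ‖v‖ := by rw [le_div_iff₀ hv0]; linarith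
      have n5 : ‖y‖ / ‖v‖ ≤ 2 := by rw [div_le_iff₀ hv0]; linarith
      have n6 : (‖y‖ / ‖v‖) ^ γ ≤ 2 ^ |γ| := by
        rcases le_total 0 γ with h | h
        · rw [abs_of_nonneg h]
          exact rpow_le_rpow (by positivity) n5 h
        · rw [abs_of_nonpos h]
          have h3 := rpow_le_rpow_of_nonpos (x := 1 / 2) (y := ‖y‖ / ‖v‖) (z := γ)
            (by norm_num) n4 h
          refine h3.trans (le_of_eq ?_)
          rw [rpow_neg (by norm_num), ← inv_rpow (by norm_num)]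
          norm_num
      rw [n3, mul_rpow hv0.le (by positivity), mul_comm]
      exact mul_le_mul_of_nonneg_right n6 (by positivity)
    have k6 : F (vq v y σ) ≤ m * ((1.01 / 0.81 * c ^ 2) ^ (q / 2) * ph q v) :=
      (hFm _).trans (mul_le_mul_of_nonneg_left k2 hm.le)
    rw [← mul_assoc]
    refine mul_le_mul_left ?_ _
    rw [← ENNReal.ofReal_mul (by positivity), ← ENNReal.ofReal_mul (by positivity),
      ← ENNReal.ofReal_mul' (hF0 _)]
    apply ENNReal.ofReal_le_ofReal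
    have p1 : (0 : ℝ) ≤ c ^ (-(2 + γ)) := by positivity
    have p2 : (0 : ℝ) ≤ (c ^ 2) ^ (-α) := by positivity
    calc ‖y‖ ^ γ * (2 ^ (d - 1) * c ^ (-(2 + γ)) * bt b ε (1 - 2 * c ^ 2)) * F (vq v y σ)
        ≤ ‖y‖ ^ γ * (2 ^ (d - 1) * c ^ (-(2 + γ)) * (2 * c₂ * (c ^ 2) ^ (-α))) *
            F (vq v y σ) := by
          have := hF0 (vq v y σ)
          gcongr
      _ ≤ (2 ^ |γ| * ‖v‖ ^ γ) * (2 ^ (d - 1) * c ^ (-(2 + γ)) * (2 * c₂ * (c ^ 2) ^ (-α))) *
            (m * ((1.01 / 0.81 * c ^ 2) ^ (q / 2) * ph q v)) := by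
          have := hF0 (vq v y σ)
          gcongr
      _ = (2 ^ |γ| * 2 ^ (d - 1) * (2 * c₂)) * (c ^ (-(2 + γ)) * (c ^ 2) ^ (-α) *
            (1.01 / 0.81 * c ^ 2) ^ (q / 2)) * (m * ph q v * ‖v‖ ^ γ) := by ring
      _ ≤ (2 ^ |γ| * 2 ^ (d - 1) * (2 * c₂)) * (1.01 / 0.81) ^ β * (m * ph q v * ‖v‖ ^ γ) := by
          gcongr
      _ = C₀ * (m * ph q v * ‖v‖ ^ γ) := by rw [hC₀]
  calc _ ≤ ∫⁻ y : E d, ∫⁻ _σ : Sd d, ENNReal.ofReal (C₀ * (m * ph q v * ‖v‖ ^ γ)) * g (v - y)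
        ∂(mS d) := lintegral_mono fun y => lintegral_mono fun σ => hM y σ
    _ = ∫⁻ y : E d, (ENNReal.ofReal (C₀ * (m * ph q v * ‖v‖ ^ γ)) * mS d univ) * g (v - y) := by
        refine lintegral_congr fun y => ?_
        rw [lintegral_const]
        ring
    _ = (ENNReal.ofReal (C₀ * (m * ph q v * ‖v‖ ^ γ)) * mS d univ) * ∫⁻ y : E d, g (v - y) :=
        lintegral_const_mul' _ _ (ENNReal.mul_ne_top ENNReal.ofReal_ne_top hfin)
    _ = (ENNReal.ofReal (C₀ * (m * ph q v * ‖v‖ ^ γ)) * mS d univ) * ∫⁻ u : E d, g u := by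
        rw [lintegral_sub_left_eq_self g v]
    _ ≤ _ := by
        refine mul_le_mul_left ?_ _
        rw [← ENNReal.ofReal_toReal hfin, ← ENNReal.ofReal_mul (by positivity)]
        apply ENNReal.ofReal_le_ofReal
        rw [ENNReal.toReal_ofReal ENNReal.toReal_nonneg]
        have : 0 ≤ m * ph q v * ‖v‖ ^ γ := by positivity
        nlinarith

end Pool.Agent.L7h65.BI
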