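import Pool.Agent.L7h65.BI.Bb

/-!
# Project BI: second differences of the barrier
-/

set_option autoImplicit false

open MeasureTheory Set Filter Topology Real
open scoped ENNReal

namespace Pool.Agent.L7h65.BI

open Pool.Agent.L7h99.BI

lemma bern {r u : ℝ} (hr : 0 ≤ r) (hu : 0 ≤ u) : 1 - r * u ≤ (1 + u) ^ (-r) := by
  rw [rpow_def_of_pos (by linarith)]
  have h1 := add_one_le_exp (log (1 + u) * -r)
  have h2 : log (1 + u) ≤ u := by
    have := log_le_sub_one_of_pos (x := 1 + u) (by linarith)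
    linarith
  nlinarith

/-- the tangent inequality for `s ^ (-r)` -/
lemma tang {r A t : ℝ} (hr : 0 ≤ r) (ht : 0 ≤ t) (htA : t < A) :
    (A - t) ^ (-r) - (A + t) ^ (-r) ≤ 2 * t * r * (A - t) ^ (-r - 1) := by
  have hA : 0 < A - t := by linarith
  have h1 := bern hr (u := 2 * t / (A - t)) (by positivity)
  have h2 : A + t = (A - t) * (1 + 2 * t / (A - t)) := by field_simp; ring
  have h3 : (A + t) ^ (-r) = (A - t) ^ (-r) * (1 + 2 * t / (A - t)) ^ (-r) := by
    rw [h2, mul_rpow hA.le (by positivity)]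
  have h4 : (A - t) ^ (-r - 1) = (A - t) ^ (-r) / (A - t) := by
    rw [rpow_sub hA, rpow_one]
  have hp : 0 < (A - t) ^ (-r) := rpow_pos_of_pos hA _
  rw [h3, h4]
  have h5 := mul_le_mul_of_nonneg_left h1 hp.le
  have h6 : 2 * t * r * ((A - t) ^ (-r) / (A - t)) = (A - t) ^ (-r) * (r * (2 * t / (A - t))) := by
    ring
  rw [h6]
  nlinarith

/-- second differences of `s ^ (-p)` -/
lemma sd {p A x : ℝ} (hp : 0 < p) (hx0 : 0 ≤ x) (hx : x < A) :
    (A + x) ^ (-p) + (A - x) ^ (-p) ≤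
      2 * A ^ (-p) + p * (p + 1) * x ^ 2 * (A - x) ^ (-p - 2) := by
  set M := p * (p + 1) * (A - x) ^ (-p - 2) with hM
  have hAx : 0 < A - x := by linarith
  set g : ℝ → ℝ := fun t => (A + t) ^ (-p) + (A - t) ^ (-p) - M * t ^ 2 with hg
  have hder : ∀ t ∈ Icc 0 x, HasDerivAt g (1 * (-p) * (A + t) ^ (-p - 1) +
      (-1) * (-p) * (A - t) ^ (-p - 1) - M * (2 * t)) t := by
    intro t ht
    have h1 : HasDerivAt (fun t : ℝ => (A + t) ^ (-p)) (1 * (-p) * (A + t) ^ (-p - 1)) t :=
      ((hasDerivAt_id t).const_add A).rpow_const (Or.inl (by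
        have := ht.1; simp only [id]; linarith))
    have h2 : HasDerivAt (fun t : ℝ => (A - t) ^ (-p)) ((-1) * (-p) * (A - t) ^ (-p - 1)) t :=
      ((hasDerivAt_id t).const_sub A).rpow_const (Or.inl (by
        have := ht.2; simp only [id]; linarith))
    have h3 : HasDerivAt (fun t : ℝ => M * t ^ 2) (M * (2 * t)) t := by
      have := (hasDerivAt_pow 2 t).const_mul M
      simpa using this
    exact (h1.add h2).sub h3
  have hanti : AntitoneOn g (Icc 0 x) := by
    apply antitoneOn_of_deriv_nonpos (convex_Icc 0 x)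
    · intro t ht
      exact (hder t ht).continuousAt.continuousWithinAt
    · intro t ht
      exact (hder t (interior_subset ht)).differentiableAt.differentiableWithinAt
    · intro t ht
      have ht' := interior_subset ht
      rw [(hder t ht').deriv]
      have h1 := tang (r := p + 1) (A := A) (t := t) (by linarith) ht'.1 (by linarith [ht'.2])
      have h2 : (A - t) ^ (-(p + 1) - 1) ≤ (A - x) ^ (-p - 2) := by
        rw [show -(p + 1) - 1 = -p - 2 by ring]
        exact rpow_le_rpow_of_nonpos hAx (by linarith [ht'.2]) (by linarith)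
      rw [show -(p + 1) = -p - 1 by ring] at h1
      rw [show -(p + 1) - 1 = -p - 1 - 1 by ring] at h2
      have h3 := mul_le_mul_of_nonneg_left h1 hp.le
      have h4 : 2 * t * (p + 1) * (A - t) ^ (-p - 1 - 1) ≤ 2 * t * (p + 1) * (A - x) ^ (-p - 2) := by
        have := ht'.1
        gcongr
      have h5 := mul_le_mul_of_nonneg_left h4 hp.le
      rw [hM]
      linarith
  have h := hanti (left_mem_Icc.2 hx0) (right_mem_Icc.2 hx0) hx0
  simp only [hg] at h
  rw [add_zero, sub_zero] at h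
  rw [hM] at h
  nlinarith

/-- the value of the barrier, with a cut -/
noncomputable def nb {d : ℕ} (q : ℝ) (v a : E d) : ℝ :=
  if 10 ≤ ‖v‖ ∧ ‖a‖ < ‖v‖ / 20 then 0 else ph q a

lemma nb_nonneg {d : ℕ} (q : ℝ) (v a : E d) : 0 ≤ nb q v a := by
  unfold nb ph
  split_ifs
  · exact le_rfl
  · positivity

lemma nb_le {d : ℕ} (q : ℝ) (v a : E d) : nb q v a ≤ ph q a := by
  unfold nb
  split_ifs
  · unfold ph; positivity
  · exact le_rfl

/-- the pointwise estimate for the symmetrised gain -/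
lemma pt_in2 {q : ℝ} (hq : 0 < q) : ∃ K : ℝ, 0 < K ∧ ∀ (d : ℕ) (v h : E d),
    nb q v (v + h) + nb q v (v - h) ≤
      2 * ph q v + K * ph q v * min 1 (‖h‖ ^ 2 / (1 + ‖v‖ ^ 2)) := by
  set p := q / 2 with hp
  have hp0 : 0 < p := by positivity
  set K1 : ℝ := 4 * p * (p + 1) * 101 ^ (p + 2) with hK1
  set K2 : ℝ := 2 * 101 ^ p with hK2
  set K3 : ℝ := 10 * 400 ^ p with hK3
  have hK10 : 0 < K1 := by positivity
  have hK20 : 0 < K2 := by positivity
  have hK30 : 0 < K3 := by positivity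
  refine ⟨K1 + K2 + K3, by positivity, fun d v h => ?_⟩
  have hB : 0 < 1 + ‖v‖ ^ 2 := by positivity
  set B := 1 + ‖v‖ ^ 2 with hBd
  have hph : ph q v = B ^ (-p) := rfl
  have hphp : 0 < ph q v := by rw [hph]; positivity
  have hmin0 : 0 ≤ min 1 (‖h‖ ^ 2 / B) := le_min zero_le_one (by positivity)
  set A := 1 + ‖v‖ ^ 2 + ‖h‖ ^ 2 with hA
  set x := |2 * ip v h| with hx
  have hx0 : 0 ≤ x := abs_nonneg _
  have hxle : x ≤ 2 * (‖v‖ * ‖h‖) := by
    rw [hx, abs_mul, abs_two]
    have := abs_real_inner_le_norm v h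
    unfold ip
    linarith
  have hplus : 1 + ‖v + h‖ ^ 2 = A + 2 * ip v h := by
    rw [norm_add_sq_real, hA]
    unfold ip
    ring
  have hminus : 1 + ‖v - h‖ ^ 2 = A - 2 * ip v h := by
    rw [norm_sub_sq_real, hA]
    unfold ip
    ring
  have hsum : ph q (v + h) + ph q (v - h) = (A + x) ^ (-p) + (A - x) ^ (-p) := by
    unfold ph
    rw [hplus, hminus, ← hp]
    rcases abs_cases (2 * ip v h) with ⟨h1, _⟩ | ⟨h1, _⟩
    · rw [hx, h1]
    · rw [hx, h1, sub_neg_eq_add, ← sub_eq_add_neg]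
      ring
  by_cases hcase : ‖h‖ ≤ ‖v‖ / 2 ∨ ‖v‖ < 10
  · have hAx : B / 101 ≤ A - x := by
      have h1 : 1 + (‖v‖ - ‖h‖) ^ 2 ≤ A - x := by rw [hA]; nlinarith
      rcases hcase with h2 | h2
      · have h3 : ‖v‖ / 2 ≤ ‖v‖ - ‖h‖ := by linarith
        have h4 : (‖v‖ / 2) ^ 2 ≤ (‖v‖ - ‖h‖) ^ 2 := pow_le_pow_left₀ (by positivity) h3 2
        rw [hBd]
        nlinarith [sq_nonneg ‖v‖]
      · have h3 : ‖v‖ ^ 2 ≤ 100 := by nlinarith [norm_nonneg v]
        rw [hBd]
        nlinarith [sq_nonneg (‖v‖ - ‖h‖)]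
    have hB101 : 0 < B / 101 := by positivity
    have hxA : x < A := by linarith
    have hle : nb q v (v + h) + nb q v (v - h) ≤ (A + x) ^ (-p) + (A - x) ^ (-p) := by
      rw [← hsum]
      exact add_le_add (nb_le _ _ _) (nb_le _ _ _)
    by_cases hh : ‖h‖ ^ 2 ≤ B
    · have h1 := sd hp0 hx0 hxA
      have h2 : A ^ (-p) ≤ ph q v := by
        rw [hph]
        exact rpow_le_rpow_of_nonpos hB (by rw [hA]; nlinarith [sq_nonneg ‖h‖]) (by linarith)
      have h3 : (A - x) ^ (-p - 2) ≤ (B / 101) ^ (-p - 2) :=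
        rpow_le_rpow_of_nonpos hB101 hAx (by linarith)
      have h4 : (B / 101) ^ (-p - 2) = 101 ^ (p + 2) * (ph q v / B ^ 2) := by
        rw [hph, div_eq_mul_inv B 101, mul_rpow hB.le (by norm_num), inv_rpow (by norm_num),
          ← rpow_neg (by norm_num), show -(-p - 2) = p + 2 by ring, rpow_sub hB]
        norm_num
        ring
      have h5 : x ^ 2 ≤ 4 * B * ‖h‖ ^ 2 := by
        have : x ^ 2 ≤ (2 * (‖v‖ * ‖h‖)) ^ 2 := pow_le_pow_left₀ hx0 hxle 2
        rw [hBd]
        nlinarith [sq_nonneg ‖h‖]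
      have h6 : p * (p + 1) * x ^ 2 * (A - x) ^ (-p - 2) ≤ K1 * ph q v * (‖h‖ ^ 2 / B) := by
        calc p * (p + 1) * x ^ 2 * (A - x) ^ (-p - 2)
            ≤ p * (p + 1) * (4 * B * ‖h‖ ^ 2) * (101 ^ (p + 2) * (ph q v / B ^ 2)) := by
              rw [← h4]
              have : 0 ≤ (A - x) ^ (-p - 2) := rpow_nonneg (by linarith) _
              gcongr
          _ = K1 * ph q v * (‖h‖ ^ 2 / B) := by
              rw [hK1]
              field_simp
      have h7 : min 1 (‖h‖ ^ 2 / B) = ‖h‖ ^ 2 / B := by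
        apply min_eq_right
        rw [div_le_one hB]
        exact hh
      rw [h7]
      have h8 : 0 ≤ (K2 + K3) * ph q v * (‖h‖ ^ 2 / B) := by positivity
      nlinarith
    · push Not at hh
      have h1 : min 1 (‖h‖ ^ 2 / B) = 1 := by
        apply min_eq_left
        rw [one_le_div hB]
        exact hh.le
      have h2 : (A - x) ^ (-p) ≤ (B / 101) ^ (-p) :=
        rpow_le_rpow_of_nonpos hB101 hAx (by linarith)
      have h3 : (A + x) ^ (-p) ≤ (B / 101) ^ (-p) :=
        rpow_le_rpow_of_nonpos hB101 (by linarith) (by linarith)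
      have h4 : (B / 101) ^ (-p) = 101 ^ p * ph q v := by
        rw [hph, div_eq_mul_inv B 101, mul_rpow hB.le (by norm_num), inv_rpow (by norm_num),
          ← rpow_neg (by norm_num), neg_neg]
        ring
      rw [h1]
      have h5 : 0 ≤ (K1 + K3) * ph q v := by positivity
      rw [h4] at h2 h3
      rw [hK2]
      nlinarith
  · push Not at hcase
    obtain ⟨hc1, hc2⟩ := hcase
    have hone : ∀ a : E d, nb q v a ≤ 400 ^ p * ph q v := by
      intro a
      unfold nb
      split_ifs with hs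
      · positivity
      · rw [not_and, not_lt] at hs
        have h1 := hs hc2
        have h2 : B / 400 ≤ 1 + ‖a‖ ^ 2 := by
          have : (‖v‖ / 20) ^ 2 ≤ ‖a‖ ^ 2 := pow_le_pow_left₀ (by positivity) h1 2
          rw [hBd]
          nlinarith
        have h3 := rpow_le_rpow_of_nonpos (x := B / 400) (y := 1 + ‖a‖ ^ 2) (z := -p)
          (by positivity) h2 (by linarith)
        unfold ph
        rw [← hp]
        refine h3.trans (le_of_eq ?_)
        rw [div_eq_mul_inv B 400, mul_rpow hB.le (by norm_num), inv_rpow (by norm_num),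
          ← rpow_neg (by norm_num), neg_neg]
        ring
    have h1 : 1 / 5 ≤ min 1 (‖h‖ ^ 2 / B) := by
      apply le_min (by norm_num)
      rw [le_div_iff₀ hB, hBd]
      have : (‖v‖ / 2) ^ 2 ≤ ‖h‖ ^ 2 := pow_le_pow_left₀ (by positivity) hc1.le 2
      nlinarith
    have h2 := hone (v + h)
    have h3 := hone (v - h)
    have h4 : 2 * (400 ^ p * ph q v) ≤ K3 * ph q v * min 1 (‖h‖ ^ 2 / B) := by
      have : K3 * ph q v * (1 / 5) ≤ K3 * ph q v * min 1 (‖h‖ ^ 2 / B) :=
        mul_le_mul_of_nonneg_left h1 (by positivity)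
      rw [hK3] at this ⊢
      linarith
    have h5 : 0 ≤ (K1 + K2) * ph q v * min 1 (‖h‖ ^ 2 / B) := by positivity
    nlinarith

end Pool.Agent.L7h65.BI
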