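import Pool.Agent.L7h99.BI.Stm2

set_option autoImplicit false

/-!
# Project BI2, part ST2: the second barrier
-/

open MeasureTheory Set Filter Topology Real
open scoped ENNReal

namespace Pool.Agent.L7h65.BI

open Pool.Agent.L7h99.BI

/-- The tail integral. -/
noncomputable def KT (d : ℕ) (r : ℝ) : ℝ := ∫ z : E d, (1 + ‖z‖ ^ 2) ^ (-r / 2)

theorem KT_nonneg (d : ℕ) (r : ℝ) : 0 ≤ KT d r :=
  integral_nonneg fun z => by positivity

theorem tail_int {d : ℕ} {r : ℝ} (hr : (d : ℝ) < r) :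
    Integrable (fun z : E d => (1 + ‖z‖ ^ 2) ^ (-r / 2)) := by
  refine integrable_rpow_neg_one_add_norm_sq ?_
  simp only [finrank_euclideanSpace, Fintype.card_fin]
  linarith

theorem tail_scale {d : ℕ} {r R : ℝ} (hR : 0 < R) :
    ∫ w : E d, (1 + ‖R⁻¹ • w‖ ^ 2) ^ (-r / 2) = R ^ d * KT d r := by
  have h := Measure.integral_comp_inv_smul_of_nonneg (volume : Measure (E d))
    (fun z : E d => (1 + ‖z‖ ^ 2) ^ (-r / 2)) hR.le
  rw [h, finrank_euclideanSpace, Fintype.card_fin]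
  rfl

theorem tail_scale_int {d : ℕ} {r R : ℝ} (hR : 0 < R) (hr : (d : ℝ) < r) :
    Integrable (fun w : E d => (1 + ‖R⁻¹ • w‖ ^ 2) ^ (-r / 2)) :=
  (tail_int hr).comp_smul (inv_ne_zero hR.ne')

/-- Pointwise splitting at `|w| = R`. -/
theorem split_pt {d : ℕ} {κ p R m : ℝ} (hκ : 0 ≤ κ) (hp : κ < p) (hR : 0 < R) (hm : 0 ≤ m)
    {F : E d → ℝ} (hF0 : ∀ w, 0 ≤ F w) (hFm : ∀ w, F w ≤ m * ph p w) (w : E d) :
    F w * ‖w‖ ^ κ ≤ R ^ κ * F w + m * 2 ^ ((p - κ) / 2) * R ^ (κ - p) *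
      (1 + ‖R⁻¹ • w‖ ^ 2) ^ (-(p - κ) / 2) := by
  rcases le_or_gt ‖w‖ R with h | h
  · have h1 : F w * ‖w‖ ^ κ ≤ R ^ κ * F w := by
      rw [mul_comm (R ^ κ)]
      exact mul_le_mul_of_nonneg_left (Real.rpow_le_rpow (norm_nonneg _) h hκ) (hF0 w)
    have h2 : 0 ≤ m * 2 ^ ((p - κ) / 2) * R ^ (κ - p) *
      (1 + ‖R⁻¹ • w‖ ^ 2) ^ (-(p - κ) / 2) := by positivity
    linarith
  · have hw : 0 < ‖w‖ := hR.trans h
    have h0 : 0 ≤ R ^ κ * F w := mul_nonneg (by positivity) (hF0 w)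
    have h1 : ph p w ≤ ‖w‖ ^ (-p) := by
      unfold ph
      have e : ‖w‖ ^ (-p) = (‖w‖ ^ 2) ^ (-(p / 2)) := by
        rw [← Real.rpow_natCast, ← Real.rpow_mul hw.le]; congr 1; push_cast; ring
      rw [e]
      exact Real.rpow_le_rpow_of_nonpos (by positivity) (by linarith) (by linarith)
    have h2 : F w * ‖w‖ ^ κ ≤ m * ‖w‖ ^ (κ - p) := by
      calc F w * ‖w‖ ^ κ ≤ (m * ‖w‖ ^ (-p)) * ‖w‖ ^ κ :=
            mul_le_mul_of_nonneg_right ((hFm w).trans (mul_le_mul_of_nonneg_left h1 hm))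
              (by positivity)
        _ = m * (‖w‖ ^ (-p) * ‖w‖ ^ κ) := by ring
        _ = m * ‖w‖ ^ (κ - p) := by rw [← Real.rpow_add hw]; congr 2; ring
    have h3 : ‖w‖ ^ (κ - p) ≤ 2 ^ ((p - κ) / 2) * R ^ (κ - p) *
        (1 + ‖R⁻¹ • w‖ ^ 2) ^ (-(p - κ) / 2) := by
      rw [norm_smul, norm_inv, Real.norm_of_nonneg hR.le]
      have hu : 1 ≤ R⁻¹ * ‖w‖ := by
        rw [inv_mul_eq_div, one_le_div hR]; exact h.le
      have e1 : ‖w‖ ^ (κ - p) = R ^ (κ - p) * (R⁻¹ * ‖w‖) ^ (κ - p) := by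
        rw [← Real.mul_rpow hR.le (by positivity)]
        congr 1
        field_simp
      rw [e1]
      set u := R⁻¹ * ‖w‖ with hu'
      have hu0 : 0 < u := by linarith
      have h4 : u ^ (κ - p) ≤ 2 ^ ((p - κ) / 2) * (1 + u ^ 2) ^ (-(p - κ) / 2) := by
        have e2 : (2:ℝ) ^ ((p - κ) / 2) * (1 + u ^ 2) ^ (-(p - κ) / 2) =
            ((1 + u ^ 2) / 2) ^ (-(p - κ) / 2) := by
          rw [Real.div_rpow (by positivity) (by norm_num), neg_div,
            Real.rpow_neg (by norm_num : (0:ℝ) ≤ 2), div_inv_eq_mul, mul_comm]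
        have e3 : u ^ (κ - p) = (u ^ 2) ^ (-(p - κ) / 2) := by
          rw [← Real.rpow_natCast, ← Real.rpow_mul hu0.le]; congr 1; push_cast; ring
        rw [e2, e3]
        refine Real.rpow_le_rpow_of_nonpos (by positivity) ?_ (by linarith)
        nlinarith
      calc R ^ (κ - p) * u ^ (κ - p) ≤
            R ^ (κ - p) * (2 ^ ((p - κ) / 2) * (1 + u ^ 2) ^ (-(p - κ) / 2)) :=
            mul_le_mul_of_nonneg_left h4 (by positivity)
        _ = _ := by ring
    have h4 := mul_le_mul_of_nonneg_left h3 hm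
    calc F w * ‖w‖ ^ κ ≤ m * ‖w‖ ^ (κ - p) := h2
      _ ≤ _ := h4
      _ = m * 2 ^ ((p - κ) / 2) * R ^ (κ - p) * (1 + ‖R⁻¹ • w‖ ^ 2) ^ (-(p - κ) / 2) := by ring
      _ ≤ _ := le_add_of_nonneg_left h0

/-- The integral in EST2 at a touching point. -/
theorem key_int {d : ℕ} {γ s p A V ρ : ℝ} {δ : ℝ} (hγ : 0 ≤ γ) (hs : 0 < s) (hs1 : s < 1)
    (hp : (d : ℝ) + (γ + 2 * s) < p) (hA : 0 < A) (hV : 2 ≤ V)
    {F : E d → ℝ} (hFi : Integrable F) (hF0 : ∀ w, 0 ≤ F w)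
    (hFm : ∀ w, F w ≤ A * V ^ p * ph p w) (hρ : ∫ w, F w ≤ ρ) {v : E d} (hv : V / 2 ≤ ‖v‖) :
    ∫ w in {w : E d | δ * ‖v‖ ≤ ‖w‖}, F w * (‖w‖ ^ γ * (‖w‖ / ‖v‖) ^ (2 * s)) ≤
      4 * (V ^ (γ + ((d : ℝ) + γ) / (p - d - (γ + 2 * s)) * (γ + 2 * s)) * ρ +
        2 ^ ((p - (γ + 2 * s)) / 2) * KT d (p - (γ + 2 * s)) * A) := by
  set κ := γ + 2 * s with hκ
  have hd0 : (0:ℝ) ≤ d := Nat.cast_nonneg d
  have hκ0 : 0 ≤ κ := by rw [hκ]; linarith
  have hD : 0 < p - d - κ := by linarith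
  set ν := ((d : ℝ) + γ) / (p - d - κ) with hν
  have hν0 : 0 ≤ ν := by rw [hν]; positivity
  have hV0 : 0 < V := by linarith
  have hv0 : 0 < ‖v‖ := by linarith
  set R := V ^ (1 + ν) with hR
  have hR0 : 0 < R := by rw [hR]; positivity
  have hm0 : 0 ≤ A * V ^ p := by positivity
  have hri : (d : ℝ) < p - κ := by linarith
  set G : E d → ℝ := fun w => (2 / V) ^ (2 * s) * (R ^ κ * F w +
    A * V ^ p * 2 ^ ((p - κ) / 2) * R ^ (κ - p) * (1 + ‖R⁻¹ • w‖ ^ 2) ^ (-(p - κ) / 2)) with hG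
  have hGi : Integrable G :=
    ((hFi.const_mul _).add ((tail_scale_int hR0 hri).const_mul _)).const_mul _
  have hG0 : ∀ w, 0 ≤ G w := by
    intro w
    have := hF0 w
    rw [hG]
    positivity
  have hpt : ∀ w, F w * (‖w‖ ^ γ * (‖w‖ / ‖v‖) ^ (2 * s)) ≤ G w := by
    intro w
    have h1 : (‖w‖ / ‖v‖) ^ (2 * s) ≤ (2 / V * ‖w‖) ^ (2 * s) := by
      refine Real.rpow_le_rpow (by positivity) ?_ (by linarith)
      rw [div_eq_mul_inv, mul_comm]
      refine mul_le_mul_of_nonneg_right ?_ (norm_nonneg _)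
      rw [inv_eq_one_div, div_le_div_iff₀ hv0 hV0]
      linarith
    have h2 : ‖w‖ ^ γ * (‖w‖ / ‖v‖) ^ (2 * s) ≤ (2 / V) ^ (2 * s) * ‖w‖ ^ κ := by
      calc ‖w‖ ^ γ * (‖w‖ / ‖v‖) ^ (2 * s) ≤ ‖w‖ ^ γ * (2 / V * ‖w‖) ^ (2 * s) :=
            mul_le_mul_of_nonneg_left h1 (by positivity)
        _ = (2 / V) ^ (2 * s) * (‖w‖ ^ γ * ‖w‖ ^ (2 * s)) := by
            rw [Real.mul_rpow (by positivity) (norm_nonneg _)]; ring
        _ = (2 / V) ^ (2 * s) * ‖w‖ ^ κ := by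
            rw [← Real.rpow_add_of_nonneg (norm_nonneg _) hγ (by linarith)]
    calc F w * (‖w‖ ^ γ * (‖w‖ / ‖v‖) ^ (2 * s)) ≤ F w * ((2 / V) ^ (2 * s) * ‖w‖ ^ κ) :=
          mul_le_mul_of_nonneg_left h2 (hF0 w)
      _ = (2 / V) ^ (2 * s) * (F w * ‖w‖ ^ κ) := by ring
      _ ≤ G w := by
          rw [hG]
          exact mul_le_mul_of_nonneg_left (split_pt hκ0 (by linarith) hR0 hm0 hF0 hFm w)
            (by positivity)
  have hI1 : ∫ w in {w : E d | δ * ‖v‖ ≤ ‖w‖}, F w * (‖w‖ ^ γ * (‖w‖ / ‖v‖) ^ (2 * s)) ≤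
      ∫ w, G w := by
    refine le_trans (integral_mono_of_nonneg (Eventually.of_forall fun w => ?_)
      hGi.integrableOn (Eventually.of_forall hpt))
      (setIntegral_le_integral hGi (Eventually.of_forall hG0))
    exact mul_nonneg (hF0 w) (by positivity)
  have hI2 : ∫ w, G w = (2 / V) ^ (2 * s) * (R ^ κ * (∫ w, F w) +
      A * V ^ p * 2 ^ ((p - κ) / 2) * R ^ (κ - p) * (R ^ d * KT d (p - κ))) := by
    rw [hG, integral_const_mul, integral_add (hFi.const_mul _)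
      ((tail_scale_int hR0 hri).const_mul _), integral_const_mul, integral_const_mul,
      tail_scale hR0]
  rw [hI2] at hI1
  refine hI1.trans ?_
  have e1 : (2 / V) ^ (2 * s) * R ^ κ ≤ 4 * V ^ (γ + ν * κ) := by
    rw [Real.div_rpow (by norm_num) hV0.le, hR, ← Real.rpow_mul hV0.le]
    have h2 : (2:ℝ) ^ (2 * s) ≤ 4 := by
      calc (2:ℝ) ^ (2 * s) ≤ 2 ^ (2:ℝ) :=
            Real.rpow_le_rpow_of_exponent_le (by norm_num) (by linarith)
        _ = 4 := by norm_num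
    have h3 : V ^ ((1 + ν) * κ) = V ^ (γ + ν * κ) * V ^ (2 * s) := by
      rw [← Real.rpow_add hV0]; congr 1; rw [hκ]; ring
    rw [h3, div_mul_eq_mul_div, ← mul_assoc, mul_div_assoc, div_self (by positivity), mul_one]
    exact mul_le_mul_of_nonneg_right h2 (by positivity)
  have e2 : (2 / V) ^ (2 * s) * (V ^ p * (R ^ (κ - p) * R ^ d)) ≤ 4 := by
    have h2 : (2:ℝ) ^ (2 * s) ≤ 4 := by
      calc (2:ℝ) ^ (2 * s) ≤ 2 ^ (2:ℝ) :=
            Real.rpow_le_rpow_of_exponent_le (by norm_num) (by linarith)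
        _ = 4 := by norm_num
    have h3 : V ^ p * (R ^ (κ - p) * R ^ d) = V ^ (2 * s) := by
      rw [← Real.rpow_natCast R d, ← Real.rpow_add hR0, hR, ← Real.rpow_mul hV0.le,
        ← Real.rpow_add hV0]
      congr 1
      have h4 : ν * (p - d - κ) = d + γ := by rw [hν]; field_simp
      have h5 : p + (1 + ν) * (κ - p + d) = p - (p - d - κ) - ν * (p - d - κ) := by ring
      rw [h5, h4, hκ]
      ring
    rw [h3, Real.div_rpow (by norm_num) hV0.le, div_mul_cancel₀ _ (by positivity)]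
    exact h2
  have hI0 : 0 ≤ ∫ w, F w := integral_nonneg hF0
  have hK0 := KT_nonneg d (p - κ)
  calc (2 / V) ^ (2 * s) * (R ^ κ * (∫ w, F w) +
      A * V ^ p * 2 ^ ((p - κ) / 2) * R ^ (κ - p) * (R ^ d * KT d (p - κ)))
      = ((2 / V) ^ (2 * s) * R ^ κ) * (∫ w, F w) +
        ((2 / V) ^ (2 * s) * (V ^ p * (R ^ (κ - p) * R ^ d))) *
          (2 ^ ((p - κ) / 2) * KT d (p - κ) * A) := by ring
    _ ≤ (4 * V ^ (γ + ν * κ)) * ρ + 4 * (2 ^ ((p - κ) / 2) * KT d (p - κ) * A) := by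
        refine add_le_add (mul_le_mul e1 hρ hI0 (by positivity))
          (mul_le_mul_of_nonneg_right e2 (by positivity))
    _ = _ := by ring

/-- The primitive. -/
theorem prim_deriv {T t₁ a α β t : ℝ} (ha : a < 1) (ht : t < T) :
    HasDerivAt (fun r => α * ((T - t₁) ^ (1 - a) - (T - r) ^ (1 - a)) / (1 - a) + β * (r - t₁))
      (α * (T - t) ^ (-a) + β) t := by
  have h0 : HasDerivAt (fun r : ℝ => T - r) (-1) t := by
    simpa using (hasDerivAt_id t).const_sub T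
  have h1 : HasDerivAt (fun r : ℝ => (T - r) ^ (1 - a)) (-1 * (1 - a) * (T - t) ^ (1 - a - 1)) t :=
    h0.rpow_const (Or.inl (by linarith))
  have h2 : HasDerivAt (fun r : ℝ => r - t₁) 1 t := by
    simpa using (hasDerivAt_id t).sub_const t₁
  have h3 := (((h1.const_sub ((T - t₁) ^ (1 - a))).const_mul α).div_const (1 - a)).add
    (h2.const_mul β)
  refine h3.congr_deriv ?_
  have ha' : (1 - a) ≠ 0 := by linarith
  have e : 1 - a - 1 = -a := by ring
  rw [e]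
  field_simp

theorem choose_x {l e c₁ c₂ : ℝ} (hl : 0 < l) (he : 0 < e) :
    ∃ x : ℝ, 0 < x ∧ x < 1 ∧ x ^ l ≤ 1 / 11 ∧ c₁ * x ^ e + c₂ * x ≤ Real.log 2 := by
  have h1 : Tendsto (fun x : ℝ => x ^ l) (𝓝[>] 0) (𝓝 0) := by
    have h := (Real.continuousAt_rpow_const 0 l (Or.inr hl.le)).tendsto
    rw [Real.zero_rpow hl.ne'] at h
    exact h.mono_left nhdsWithin_le_nhds
  have h2 : Tendsto (fun x : ℝ => c₁ * x ^ e + c₂ * x) (𝓝[>] 0) (𝓝 0) := by
    have h := (Real.continuousAt_rpow_const 0 e (Or.inr he.le)).tendsto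
    rw [Real.zero_rpow he.ne'] at h
    have h3 := ((h.const_mul c₁).add ((continuous_id.tendsto (0:ℝ)).const_mul c₂))
    simp only [mul_zero, add_zero, id_eq] at h3
    exact h3.mono_left nhdsWithin_le_nhds
  have h3 : ∀ᶠ x : ℝ in 𝓝[>] 0, x ^ l < 1 / 11 := h1.eventually (gt_mem_nhds (by norm_num))
  have h4 : ∀ᶠ x : ℝ in 𝓝[>] 0, c₁ * x ^ e + c₂ * x < Real.log 2 :=
    h2.eventually (gt_mem_nhds (Real.log_pos (by norm_num)))
  have h5 : ∀ᶠ x : ℝ in 𝓝[>] 0, x ∈ Ioo (0:ℝ) 1 := Ioo_mem_nhdsGT zero_lt_one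
  obtain ⟨x, hx⟩ := (h3.and (h4.and h5)).exists
  exact ⟨x, hx.2.2.1, hx.2.2.2, hx.1.le, hx.2.1.le⟩

theorem t_ST2 : S_ST2 := by
  intro hEST2 hMAX2 hMC d s γ b c₁ c₂ T f hd hs0 hs1 hγ hκ2 hK hT hf a l C hl hC hal hmass hall q
  have hd0 : (0:ℝ) ≤ d := Nat.cast_nonneg d
  rcases eq_or_lt_of_le hl with hl0 | hl0
  · obtain ⟨A, hA, h⟩ := hall q
    refine ⟨A, hA, fun t ht x v => ?_⟩
    have h1 := h t ht x v
    rw [← hl0, mul_zero, Real.rpow_zero, mul_one] at h1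
    exact h1
  obtain ⟨q₀, hq₀, hest⟩ := hEST2 d hd s hs0 hs1 γ hγ b c₁ c₂ hK
  set κ := γ + 2 * s with hκ
  have hκ0 : 0 < κ := by rw [hκ]; linarith
  set η := 1 - a - γ * l with hη
  have hη0 : 0 < η := by rw [hη]; linarith
  set p := max (max q₀ q) ((d : ℝ) + κ + 1 + (d + γ) * κ * l / η) with hp
  have hpq0 : q₀ ≤ p := (le_max_left _ _).trans (le_max_left _ _)
  have hpq : q ≤ p := (le_max_right _ _).trans (le_max_left _ _)
  have hp1 : (d : ℝ) + κ + 1 + (d + γ) * κ * l / η ≤ p := le_max_right _ _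
  have hX0 : 0 ≤ (d + γ) * κ * l / η := by positivity
  have hpd : (d : ℝ) + κ < p := by linarith
  have hp2 : 1 ≤ p := by linarith
  have hp0 : 0 < p := by linarith
  set ν := ((d : ℝ) + γ) / (p - d - κ) with hν
  have hν0 : 0 ≤ ν := by
    rw [hν]; exact div_nonneg (by linarith) (by linarith)
  have hνκ : ν * κ * l < η := by
    have h1 : ν * κ * l = (d + γ) * κ * l / (p - d - κ) := by rw [hν]; ring
    rw [h1, div_lt_iff₀ (by linarith)]
    have h2 : η * (1 + (d + γ) * κ * l / η) ≤ η * (p - d - κ) :=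
      mul_le_mul_of_nonneg_left (by linarith) hη0.le
    have h3 : η * (1 + (d + γ) * κ * l / η) = η + (d + γ) * κ * l := by field_simp
    linarith
  set γ' := γ + ν * κ with hγ'
  have hγ'0 : 0 ≤ γ' := by rw [hγ']; positivity
  have ha : a < 1 := by nlinarith [mul_nonneg hγ hl]
  have ha1 : 0 < 1 - a := by linarith
  obtain ⟨C₀, δ, ε₀, hC₀, hδ, hε₀, hest'⟩ := hest p hpq0
  obtain ⟨A, hA, hAf⟩ := hall p
  set K := (2:ℝ) ^ ((p - κ) / 2) * KT d (p - κ) with hKdef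
  have hK0 : 0 ≤ K := mul_nonneg (by positivity) (KT_nonneg _ _)
  set β := 4 * C₀ * (K * A) + 1 with hβ
  have hβ0 : 0 < β := by rw [hβ]; positivity
  obtain ⟨x, hx0, hx1, hxl, hxs⟩ := choose_x (l := l) (e := 1 - a - l * γ')
    (c₁ := 4 * C₀ * (4 ^ γ' * C) * T ^ (1 - a) / (1 - a)) (c₂ := β * T) hl0
    (by
      have : l * γ' = γ * l + ν * κ * l := by rw [hγ']; ring
      rw [this]; linarith)
  set t₁ := T - T * x with ht₁
  have hTx : T - t₁ = T * x := by rw [ht₁]; ring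
  have hTx0 : 0 < T * x := mul_pos hT hx0
  have ht₁T : t₁ < T := by linarith
  have ht₁0 : 0 ≤ t₁ := by
    rw [ht₁]
    have := mul_lt_mul_of_pos_left hx1 hT
    linarith
  set Λ := x ^ (-l) with hΛ
  have hΛ11 : 11 ≤ Λ := by
    rw [hΛ, Real.rpow_neg hx0.le, le_inv_comm₀ (by norm_num) (by positivity)]
    linarith
  have hΛ0 : 0 < Λ := by linarith
  set α := 4 * C₀ * ((4 * Λ) ^ γ' * C) with hα
  have hα0 : 0 ≤ α := by rw [hα]; positivity
  set N : ℝ → ℝ := fun r => α * ((T - t₁) ^ (1 - a) - (T - r) ^ (1 - a)) / (1 - a) + β * (r - t₁)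
    with hN
  have hNd : ∀ t, t < T → HasDerivAt N (α * (T - t) ^ (-a) + β) t := fun t ht => prim_deriv ha ht
  have hN0 : N t₁ = 0 := by rw [hN]; simp
  have hNnn : ∀ t ∈ Ico t₁ T, 0 ≤ N t := by
    intro t ht
    rw [hN]
    have h1 : (T - t) ^ (1 - a) ≤ (T - t₁) ^ (1 - a) :=
      Real.rpow_le_rpow (by linarith [ht.2]) (by linarith [ht.1]) ha1.le
    have h2 : 0 ≤ t - t₁ := by linarith [ht.1]
    have h3 : 0 ≤ (T - t₁) ^ (1 - a) - (T - t) ^ (1 - a) := by linarith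
    positivity
  have hNle : ∀ t ∈ Ico t₁ T, N t ≤ Real.log 2 := by
    intro t ht
    refine le_trans ?_ hxs
    rw [hN]
    have h1 : 0 ≤ (T - t) ^ (1 - a) := Real.rpow_nonneg (by linarith [ht.2]) _
    have h2 : α * ((T - t₁) ^ (1 - a) - (T - t) ^ (1 - a)) / (1 - a) ≤
        α * (T - t₁) ^ (1 - a) / (1 - a) := by
      refine div_le_div_of_nonneg_right (mul_le_mul_of_nonneg_left ?_ hα0) ha1.le
      linarith
    have h3 : α * (T - t₁) ^ (1 - a) / (1 - a) =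
        4 * C₀ * (4 ^ γ' * C) * T ^ (1 - a) / (1 - a) * x ^ (1 - a - l * γ') := by
      rw [hα, hTx, Real.mul_rpow hT.le hx0.le, Real.mul_rpow (by norm_num) hΛ0.le, hΛ,
        ← Real.rpow_mul hx0.le]
      have e : x ^ (1 - a - l * γ') = x ^ (-l * γ') * x ^ (1 - a) := by
        rw [← Real.rpow_add hx0]; congr 1; ring
      rw [e]
      ring
    have h4 : β * (t - t₁) ≤ β * T * x := by
      rw [mul_assoc]
      refine mul_le_mul_of_nonneg_left ?_ hβ0.le
      linarith [ht.2]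
    linarith
  set m₁ := 2 * A * Λ ^ p with hm₁
  have hm₁0 : 0 < m₁ := by rw [hm₁]; positivity
  have hmain := hMAX2 d t₁ T f (fun t v => m₁ * Real.exp (N t) * ph p v)
    (fun t v => (α * (T - t) ^ (-a) + β) * (m₁ * Real.exp (N t) * ph p v)) ht₁T
    (fun t ht => hf.periodic t ⟨ht₁0.trans ht.1, ht.2⟩)
    (hf.cont.mono (Set.prod_mono (fun t ht => ⟨ht₁0.trans ht.1, ht.2⟩) le_rfl))
    (by
      have h1 : ContinuousOn N (Ico t₁ T) := fun t ht => (hNd t ht.2).continuousAt.continuousWithinAt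
      have h2 : ContinuousOn (fun p' : ℝ × E d => N p'.1) (Ico t₁ T ×ˢ univ) :=
        h1.comp continuousOn_fst (fun p' hp' => hp'.1)
      have h3 : Continuous (fun p' : ℝ × E d => ph p p'.2) := by
        unfold ph
        refine (continuous_const.add ((continuous_norm.comp continuous_snd).pow 2)).rpow_const
          (fun y => Or.inl ?_)
        have : (0:ℝ) < 1 + ‖y.2‖ ^ 2 := by positivity
        exact this.ne'
      exact (continuousOn_const.mul (Real.continuous_exp.comp_continuousOn h2)).mul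
        h3.continuousOn)
    (by
      intro t ht v
      have h1 := (((hNd t ht.2).exp).const_mul m₁).mul_const (ph p v)
      refine h1.congr_deriv ?_
      ring)
    (by
      intro T' hT'
      obtain ⟨C', hC'⟩ := hf.decay T' (ht₁0.trans hT'.1) hT'.2 (p + 1)
      refine ⟨|C'| / m₁, fun t ht y v hv => ?_⟩
      have ht' : t ∈ Icc 0 T' := ⟨ht₁0.trans ht.1, ht.2⟩
      have hN' : 0 ≤ N t := hNnn t ⟨ht.1, lt_of_le_of_lt ht.2 hT'.2⟩
      have hpos : (0:ℝ) < 1 + ‖v‖ ^ 2 := by positivity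
      have e1 : ph (p + 1) v = ph p v * (1 + ‖v‖ ^ 2) ^ (-(1 / 2) : ℝ) := by
        unfold ph
        rw [← Real.rpow_add hpos]
        congr 1
        ring
      have h1 : |C'| * (1 + ‖v‖ ^ 2) ^ (-(1 / 2) : ℝ) < m₁ := by
        rw [Real.rpow_neg hpos.le, ← Real.sqrt_eq_rpow, ← div_eq_mul_inv,
          div_lt_iff₀ (Real.sqrt_pos.2 hpos)]
        have h2 : |C'| ≤ m₁ * ‖v‖ := by
          rw [div_le_iff₀ hm₁0] at hv
          linarith
        have h3 : ‖v‖ < √(1 + ‖v‖ ^ 2) := by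
          refine Real.lt_sqrt_of_sq_lt ?_
          linarith
        exact h2.trans_lt (mul_lt_mul_of_pos_left h3 hm₁0)
      have h2 : m₁ ≤ m₁ * Real.exp (N t) := le_mul_of_one_le_right hm₁0.le (Real.one_le_exp hN')
      calc f t y v ≤ C' * ph (p + 1) v := hC' t ht' y v
        _ ≤ |C'| * ph (p + 1) v := mul_le_mul_of_nonneg_right (le_abs_self _) (ph_pos _ _).le
        _ = (|C'| * (1 + ‖v‖ ^ 2) ^ (-(1 / 2) : ℝ)) * ph p v := by rw [e1]; ring
        _ < m₁ * ph p v := mul_lt_mul_of_pos_right h1 (ph_pos _ _)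
        _ ≤ m₁ * Real.exp (N t) * ph p v := mul_le_mul_of_nonneg_right h2 (ph_pos _ _).le)
    (by
      intro y v
      simp only [hN0, Real.exp_zero, mul_one]
      have h1 := hAf t₁ ⟨ht₁0, ht₁T⟩ y v
      have e0 : (T - t₁) / T = x := by rw [hTx]; field_simp
      rw [e0] at h1
      have hpos : (0:ℝ) < 1 + ‖v‖ ^ 2 := by positivity
      have h2 : (1 + ‖v‖ ^ 2 * x ^ (2 * l)) ^ (-(p / 2)) ≤ Λ ^ p * ph p v := by
        have e1 : Λ ^ p = (x ^ (2 * l)) ^ (-(p / 2)) := by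
          rw [hΛ, ← Real.rpow_mul hx0.le, ← Real.rpow_mul hx0.le]
          congr 1
          ring
        unfold ph
        rw [e1, ← Real.mul_rpow (by positivity) hpos.le]
        refine Real.rpow_le_rpow_of_nonpos (by positivity) ?_ (by linarith)
        have h3 : x ^ (2 * l) ≤ 1 := Real.rpow_le_one hx0.le hx1.le (by linarith)
        nlinarith
      have h3 : A * (1 + ‖v‖ ^ 2 * x ^ (2 * l)) ^ (-(p / 2)) ≤ A * (Λ ^ p * ph p v) :=
        mul_le_mul_of_nonneg_left h2 hA.le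
      have h4 : 0 < A * (Λ ^ p * ph p v) :=
        mul_pos hA (mul_pos (by positivity) (ph_pos _ _))
      calc f t₁ y v ≤ A * (Λ ^ p * ph p v) := h1.trans h3
        _ < 2 * (A * (Λ ^ p * ph p v)) := by linarith
        _ = m₁ * ph p v := by rw [hm₁]; ring)
    (by
      intro t ht y v hle heq
      have ht' : t ∈ Ioo 0 T := ⟨lt_of_le_of_lt ht₁0 ht.1, ht.2⟩
      have ht'' : t ∈ Ico 0 T := ⟨ht'.1.le, ht'.2⟩
      have htN : t ∈ Ico t₁ T := ⟨ht.1.le, ht.2⟩
      obtain ⟨L, hL, hlim⟩ := hf.eqn t ht' y v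
      refine ⟨L, hL, ?_⟩
      have hcv := hf.cv ht'' y
      set m := m₁ * Real.exp (N t) with hm
      have hm0 : 0 < m := by rw [hm]; positivity
      have hmp : 0 < m * ph p v := mul_pos hm0 (ph_pos p v)
      set V := (m / A) ^ (1 / p) with hV
      have hmA : 0 < m / A := by positivity
      have hV0 : 0 < V := by rw [hV]; positivity
      have hVp : V ^ p = m / A := by
        rw [hV, ← Real.rpow_mul hmA.le, one_div, inv_mul_cancel₀ hp0.ne', Real.rpow_one]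
      have hAV : A * V ^ p = m := by rw [hVp]; field_simp
      have hexp1 : 1 ≤ Real.exp (N t) := Real.one_le_exp (hNnn t htN)
      have hexp2 : Real.exp (N t) ≤ 2 := by
        have := Real.exp_le_exp.2 (hNle t htN)
        rwa [Real.exp_log (by norm_num)] at this
      have hmA1 : m / A = 2 * Real.exp (N t) * Λ ^ p := by
        rw [hm, hm₁]; field_simp
      have hΛp : 0 < Λ ^ p := by positivity
      have hVΛ : Λ ≤ V := by
        rw [← Real.rpow_le_rpow_iff hΛ0.le hV0.le hp0, hVp, hmA1]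
        nlinarith
      have hVΛ' : V ≤ 4 * Λ := by
        rw [← Real.rpow_le_rpow_iff hV0.le (by positivity) hp0, hVp, hmA1,
          Real.mul_rpow (by norm_num) hΛ0.le]
        refine mul_le_mul_of_nonneg_right ?_ hΛp.le
        have h4 : (4:ℝ) ^ (1:ℝ) ≤ 4 ^ p := Real.rpow_le_rpow_of_exponent_le (by norm_num) hp2
        rw [Real.rpow_one] at h4
        linarith
      have hτ : 0 < (T - t) / T := div_pos (by linarith [ht.2]) hT
      have hfA : m * ph p v ≤ A := by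
        have h1 := hAf t ht'' y v
        rw [heq] at h1
        refine h1.trans ?_
        refine mul_le_of_le_one_right hA.le ?_
        refine Real.rpow_le_one_of_one_le_of_nonpos ?_ (by linarith)
        have : 0 ≤ ‖v‖ ^ 2 * ((T - t) / T) ^ (2 * l) := by positivity
        linarith
      have hpos : (0:ℝ) < 1 + ‖v‖ ^ 2 := by positivity
      have hV2 : V ^ 2 ≤ 1 + ‖v‖ ^ 2 := by
        have h1 : V ^ p * ph p v ≤ 1 := by
          rw [hVp, div_mul_eq_mul_div, div_le_one hA]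
          exact hfA
        have h2 : V ^ p ≤ (1 + ‖v‖ ^ 2) ^ (p / 2) := by
          have h3 : ph p v = ((1 + ‖v‖ ^ 2) ^ (p / 2))⁻¹ := by
            unfold ph; rw [Real.rpow_neg hpos.le]
          rw [h3, ← div_eq_mul_inv, div_le_one (by positivity)] at h1
          exact h1
        have h4 : V ^ p = (V ^ 2) ^ (p / 2) := by
          rw [← Real.rpow_natCast, ← Real.rpow_mul hV0.le]; congr 1; push_cast; ring
        rw [h4, Real.rpow_le_rpow_iff (by positivity) hpos.le (by linarith)] at h2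
        exact h2
      have hV11 : 11 ≤ V := hΛ11.trans hVΛ
      have hv10 : 10 ≤ ‖v‖ := by
        have h1 : (10:ℝ) ^ 2 ≤ ‖v‖ ^ 2 := by nlinarith
        exact le_of_sq_le_sq h1 (norm_nonneg v)
      have hvV : V / 2 ≤ ‖v‖ := by
        have h1 : (V / 2) ^ 2 ≤ ‖v‖ ^ 2 := by nlinarith
        exact le_of_sq_le_sq h1 (norm_nonneg v)
      have hFi : Integrable (f t y) := by
        have := ((MC_app hMC hT hf 0).2 t ht'').2 y
        simpa using this
      have hF0 := hf.nonneg t ht'' y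
      have hFm : ∀ w, f t y w ≤ A * V ^ p * ph p w := by
        intro w; rw [hAV]; exact hle y w
      have hkey := key_int (δ := δ) hγ hs0 hs1 hpd hA (by linarith : (2:ℝ) ≤ V) hFi hF0 hFm
        (hmass t ht'' y) hvV
      rw [← hκ, ← hν, ← hγ', ← hKdef] at hkey
      have hLle : L (1, v) ≤ C₀ * (m * ph p v) *
          ∫ w in {w : E d | δ * ‖v‖ ≤ ‖w‖}, f t y w * (‖w‖ ^ γ * (‖w‖ / ‖v‖) ^ (2 * s)) := by
        refine le_of_tendsto hlim ?_
        filter_upwards [Ioo_mem_nhdsGT hε₀] with ε hε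
        exact hest' ε hε.1 hε.2 (f t y) m hcv hF0 hm0 (fun w => hle y w) v hv10 heq
      have hρ0 : 0 ≤ C * (T - t) ^ (-a) :=
        mul_nonneg hC (Real.rpow_nonneg (by linarith [ht.2]) _)
      have hVγ : V ^ γ' ≤ (4 * Λ) ^ γ' := Real.rpow_le_rpow hV0.le hVΛ' hγ'0
      have h5 : 4 * (V ^ γ' * (C * (T - t) ^ (-a)) + K * A) ≤
          4 * ((4 * Λ) ^ γ' * (C * (T - t) ^ (-a)) + K * A) := by
        have := mul_le_mul_of_nonneg_right hVγ hρ0
        linarith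
      calc L (1, v) ≤ C₀ * (m * ph p v) *
            (4 * ((4 * Λ) ^ γ' * (C * (T - t) ^ (-a)) + K * A)) :=
            hLle.trans (mul_le_mul_of_nonneg_left (hkey.trans h5) (by positivity))
        _ < C₀ * (m * ph p v) * (4 * ((4 * Λ) ^ γ' * (C * (T - t) ^ (-a)) + K * A)) +
            m * ph p v := lt_add_of_pos_right _ hmp
        _ = (α * (T - t) ^ (-a) + β) * (m * ph p v) := by rw [hα, hβ]; ring)
  obtain ⟨C'', hC''⟩ := hf.decay t₁ ht₁0 ht₁T q
  refine ⟨max (m₁ * 2) C'', lt_of_lt_of_le (by positivity) (le_max_left _ _), ?_⟩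
  intro t ht y v
  rcases le_or_gt t t₁ with h | h
  · refine (hC'' t ⟨ht.1, h⟩ y v).trans ?_
    exact mul_le_mul_of_nonneg_right (le_max_right _ _) (ph_pos _ _).le
  · have htN : t ∈ Ico t₁ T := ⟨h.le, ht.2⟩
    have h1 := (hmain t htN y v).le
    have hexp2 : Real.exp (N t) ≤ 2 := by
      have := Real.exp_le_exp.2 (hNle t htN)
      rwa [Real.exp_log (by norm_num)] at this
    have h3 : ph p v ≤ ph q v := by
      unfold ph
      refine Real.rpow_le_rpow_of_exponent_le ?_ (by linarith)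
      nlinarith [sq_nonneg ‖v‖]
    calc f t y v ≤ m₁ * Real.exp (N t) * ph p v := h1
      _ ≤ (m₁ * 2) * ph q v := by
          refine mul_le_mul ?_ h3 (ph_pos p v).le (by positivity)
          exact mul_le_mul_of_nonneg_left hexp2 hm₁0.le
      _ ≤ _ := mul_le_mul_of_nonneg_right (le_max_left _ _) (ph_pos _ _).le

end Pool.Agent.L7h65.BI
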