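import Pool.Agent.L7h65.BI.St2
import Pool.Agent.L7h99.BI.Stm3

set_option autoImplicit false

/-!
# Project BI3, part ST23: the second barrier, soft potentials
-/

open MeasureTheory Set Filter Topology Real
open scoped ENNReal

namespace Pool.Agent.L7h65.BI

open Pool.Agent.L7h99.BI

/-- The integral in EST3 at a touching point. -/
theorem key_int3 {d : ℕ} {γ s p A V ρ C₁ δ : ℝ} (hs : 0 < s) (hs1 : s < 1)
    (hp : (d : ℝ) + 3 < p) (hA : 0 < A) (hV : 2 ≤ V)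
    {F : E d → ℝ} (hF0 : ∀ w, 0 ≤ F w) (hFm : ∀ w, F w ≤ A * V ^ p * ph p w) {v : E d}
    (hFi : Integrable (fun w => F w * ‖v - w‖ ^ γ)) (hρ : ∫ w, F w * ‖v - w‖ ^ γ ≤ ρ)
    (hRi : Integrable (fun w : E d => ph ((d : ℝ) + 1) w * ‖v - w‖ ^ γ))
    (hR : ∫ w : E d, ph ((d : ℝ) + 1) w * ‖v - w‖ ^ γ ≤ C₁) (hv : V ≤ √(1 + ‖v‖ ^ 2)) :
    ∫ w in {w : E d | ‖v‖ < 10 ∨ δ * ‖v‖ ≤ ‖w‖},
      F w * (‖v - w‖ ^ γ * (1 + ‖w‖ / √(1 + ‖v‖ ^ 2)) ^ (2 * s)) ≤
      4 * (V ^ (2 * (((d : ℝ) + 3) / (p - d - 3))) * ρ + C₁ * A) := by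
  have hd0 : (0:ℝ) ≤ d := Nat.cast_nonneg d
  have hD : 0 < p - d - 3 := by linarith
  set ν := ((d : ℝ) + 3) / (p - d - 3) with hν
  have hν0 : 0 ≤ ν := by rw [hν]; positivity
  have hV0 : 0 < V := by linarith
  have hj0 : 0 < √(1 + ‖v‖ ^ 2) := by linarith
  set R := V ^ (1 + ν) with hRd
  have hR0 : 0 < R := by rw [hRd]; positivity
  have hm0 : 0 ≤ A * V ^ p := by positivity
  set G : E d → ℝ := fun w => 4 * V ^ (2 * ν) * (F w * ‖v - w‖ ^ γ) +
    2 * A * (ph ((d : ℝ) + 1) w * ‖v - w‖ ^ γ) with hG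
  have hGi : Integrable G := (hFi.const_mul _).add (hRi.const_mul _)
  have hG0 : ∀ w, 0 ≤ G w := by
    intro w
    have := hF0 w
    have := (ph_pos ((d : ℝ) + 1) w).le
    rw [hG]
    positivity
  have hpt : ∀ w, F w * (‖v - w‖ ^ γ * (1 + ‖w‖ / √(1 + ‖v‖ ^ 2)) ^ (2 * s)) ≤ G w := by
    intro w
    have hn : 0 ≤ ‖v - w‖ ^ γ := by positivity
    have hb1 : 1 ≤ 1 + ‖w‖ / √(1 + ‖v‖ ^ 2) := by
      have : 0 ≤ ‖w‖ / √(1 + ‖v‖ ^ 2) := by positivity
      linarith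
    have hb2 : (1 + ‖w‖ / √(1 + ‖v‖ ^ 2)) ^ (2 * s) ≤ (1 + ‖w‖ / √(1 + ‖v‖ ^ 2)) ^ 2 := by
      have h := Real.rpow_le_rpow_of_exponent_le hb1 (by linarith : 2 * s ≤ 2)
      rwa [Real.rpow_two] at h
    rcases le_or_gt ‖w‖ R with h | h
    · have h1 : ‖w‖ / √(1 + ‖v‖ ^ 2) ≤ V ^ ν := by
        rw [div_le_iff₀ hj0]
        calc ‖w‖ ≤ V ^ (1 + ν) := h
          _ = V ^ ν * V := by rw [Real.rpow_add hV0, Real.rpow_one, mul_comm]
          _ ≤ V ^ ν * √(1 + ‖v‖ ^ 2) := mul_le_mul_of_nonneg_left hv (by positivity)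
      have h2 : 1 ≤ V ^ ν := Real.one_le_rpow (by linarith) hν0
      have h3 : (1 + ‖w‖ / √(1 + ‖v‖ ^ 2)) ^ 2 ≤ 4 * V ^ (2 * ν) := by
        have e : V ^ (2 * ν) = (V ^ ν) ^ 2 := by
          rw [← Real.rpow_natCast, ← Real.rpow_mul hV0.le]; congr 1; push_cast; ring
        rw [e]
        nlinarith
      have h4 : F w * (‖v - w‖ ^ γ * (1 + ‖w‖ / √(1 + ‖v‖ ^ 2)) ^ (2 * s)) ≤
          4 * V ^ (2 * ν) * (F w * ‖v - w‖ ^ γ) := by
        calc F w * (‖v - w‖ ^ γ * (1 + ‖w‖ / √(1 + ‖v‖ ^ 2)) ^ (2 * s))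
            ≤ F w * (‖v - w‖ ^ γ * (4 * V ^ (2 * ν))) :=
              mul_le_mul_of_nonneg_left (mul_le_mul_of_nonneg_left (hb2.trans h3) hn) (hF0 w)
          _ = _ := by ring
      have h5 : 0 ≤ 2 * A * (ph ((d : ℝ) + 1) w * ‖v - w‖ ^ γ) := by
        have := (ph_pos ((d : ℝ) + 1) w).le
        positivity
      rw [hG]
      simp only
      linarith
    · have hw : 0 < ‖w‖ := hR0.trans h
      have hpos : (0:ℝ) < 1 + ‖w‖ ^ 2 := by positivity
      have h1 : (1 + ‖w‖ / √(1 + ‖v‖ ^ 2)) ^ 2 ≤ 2 * (1 + ‖w‖ ^ 2) := by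
        have h2 : ‖w‖ / √(1 + ‖v‖ ^ 2) ≤ ‖w‖ := div_le_self hw.le (by linarith)
        have h3 : 0 ≤ ‖w‖ / √(1 + ‖v‖ ^ 2) := by positivity
        nlinarith [sq_nonneg (‖w‖ - 1)]
      have h2 : V ^ p * (ph p w * (1 + ‖w‖ ^ 2)) ≤ ph ((d : ℝ) + 1) w := by
        have e1 : ph p w * (1 + ‖w‖ ^ 2) =
            ph ((d : ℝ) + 1) w * (1 + ‖w‖ ^ 2) ^ (-((p - d - 3) / 2)) := by
          unfold ph
          conv_lhs => rw [← Real.rpow_one (1 + ‖w‖ ^ 2)]
          rw [← Real.rpow_mul hpos.le, ← Real.rpow_add hpos, ← Real.rpow_add hpos]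
          congr 1
          ring
        have e2 : (1 + ‖w‖ ^ 2) ^ (-((p - d - 3) / 2)) ≤ R ^ (-(p - d - 3)) := by
          have e3 : R ^ (-(p - d - 3)) = (R ^ 2) ^ (-((p - d - 3) / 2)) := by
            rw [← Real.rpow_natCast, ← Real.rpow_mul hR0.le]; congr 1; push_cast; ring
          rw [e3]
          refine Real.rpow_le_rpow_of_nonpos (by positivity) ?_ (by linarith)
          nlinarith
        have e4 : V ^ p * R ^ (-(p - d - 3)) = 1 := by
          rw [hRd, ← Real.rpow_mul hV0.le, ← Real.rpow_add hV0]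
          have h4 : ν * (p - d - 3) = d + 3 := by rw [hν]; field_simp
          have h5 : p + (1 + ν) * -(p - d - 3) = (d + 3) - ν * (p - d - 3) := by ring
          rw [h5, h4, sub_self, Real.rpow_zero]
        have hph := (ph_pos ((d : ℝ) + 1) w).le
        calc V ^ p * (ph p w * (1 + ‖w‖ ^ 2)) =
              ph ((d : ℝ) + 1) w * (V ^ p * (1 + ‖w‖ ^ 2) ^ (-((p - d - 3) / 2))) := by
              rw [e1]; ring
          _ ≤ ph ((d : ℝ) + 1) w * (V ^ p * R ^ (-(p - d - 3))) :=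
              mul_le_mul_of_nonneg_left (mul_le_mul_of_nonneg_left e2 (by positivity)) hph
          _ = _ := by rw [e4, mul_one]
      have h4 : F w * (‖v - w‖ ^ γ * (1 + ‖w‖ / √(1 + ‖v‖ ^ 2)) ^ (2 * s)) ≤
          2 * A * (ph ((d : ℝ) + 1) w * ‖v - w‖ ^ γ) := by
        calc F w * (‖v - w‖ ^ γ * (1 + ‖w‖ / √(1 + ‖v‖ ^ 2)) ^ (2 * s))
            ≤ F w * (‖v - w‖ ^ γ * (2 * (1 + ‖w‖ ^ 2))) :=
              mul_le_mul_of_nonneg_left (mul_le_mul_of_nonneg_left (hb2.trans h1) hn) (hF0 w)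
          _ ≤ (A * V ^ p * ph p w) * (‖v - w‖ ^ γ * (2 * (1 + ‖w‖ ^ 2))) :=
              mul_le_mul_of_nonneg_right (hFm w) (by positivity)
          _ = 2 * A * ‖v - w‖ ^ γ * (V ^ p * (ph p w * (1 + ‖w‖ ^ 2))) := by ring
          _ ≤ 2 * A * ‖v - w‖ ^ γ * ph ((d : ℝ) + 1) w :=
              mul_le_mul_of_nonneg_left h2 (by positivity)
          _ = _ := by ring
      have h5 : 0 ≤ 4 * V ^ (2 * ν) * (F w * ‖v - w‖ ^ γ) := by
        have := hF0 w
        positivity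
      rw [hG]
      simp only
      linarith
  have hI1 : ∫ w in {w : E d | ‖v‖ < 10 ∨ δ * ‖v‖ ≤ ‖w‖},
      F w * (‖v - w‖ ^ γ * (1 + ‖w‖ / √(1 + ‖v‖ ^ 2)) ^ (2 * s)) ≤ ∫ w, G w := by
    refine le_trans (integral_mono_of_nonneg (Eventually.of_forall fun w => ?_)
      hGi.integrableOn (Eventually.of_forall hpt))
      (setIntegral_le_integral hGi (Eventually.of_forall hG0))
    have := hF0 w
    simp only [Pi.zero_apply]
    positivity
  have hI2 : ∫ w, G w = 4 * V ^ (2 * ν) * (∫ w, F w * ‖v - w‖ ^ γ) +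
      2 * A * (∫ w : E d, ph ((d : ℝ) + 1) w * ‖v - w‖ ^ γ) := by
    rw [hG, integral_add (hFi.const_mul _) (hRi.const_mul _), integral_const_mul,
      integral_const_mul]
  rw [hI2] at hI1
  refine hI1.trans ?_
  have hRnn : 0 ≤ ∫ w : E d, ph ((d : ℝ) + 1) w * ‖v - w‖ ^ γ :=
    integral_nonneg fun w => mul_nonneg (ph_pos _ _).le (by positivity)
  have hC1 : 0 ≤ C₁ := hRnn.trans hR
  have k1 : 4 * V ^ (2 * ν) * (∫ w, F w * ‖v - w‖ ^ γ) ≤ 4 * V ^ (2 * ν) * ρ :=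
    mul_le_mul_of_nonneg_left hρ (by positivity)
  have k2 : 2 * A * (∫ w : E d, ph ((d : ℝ) + 1) w * ‖v - w‖ ^ γ) ≤ 2 * A * C₁ :=
    mul_le_mul_of_nonneg_left hR (by positivity)
  have k3 : 0 ≤ A * C₁ := by positivity
  linarith

theorem t_ST23 : S_ST23 := by
  intro hEST3 hMAX2 hMC hRZ hMC3 d s γ b c₁ c₂ T f hd hs0 hs1 hγd hγ hK hT hf a l C hl hC ha hmass
    hall q
  have hd0 : (0:ℝ) ≤ d := Nat.cast_nonneg d
  rcases eq_or_lt_of_le hl with hl0 | hl0
  · obtain ⟨A, hA, h⟩ := hall q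
    refine ⟨A, hA, fun t ht x v => ?_⟩
    have h1 := h t ht x v
    rw [← hl0, mul_zero, Real.rpow_zero, mul_one] at h1
    exact h1
  obtain ⟨q₀, hq₀, hest⟩ := hEST3 d hd s hs0 hs1 γ hγd hγ b c₁ c₂ hK
  obtain ⟨K, hKp, hRZ1⟩ := (hRZ d γ hd hγd hγ).1 ((d : ℝ) + 1) (by linarith)
  have hK0 : 0 ≤ K := hKp.le
  have ha1 : 0 < 1 - a := by linarith
  set p := max (max q₀ q) ((d : ℝ) + 3 + 1 + 2 * (d + 3) * l / (1 - a)) with hp
  have hpq0 : q₀ ≤ p := (le_max_left _ _).trans (le_max_left _ _)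
  have hpq : q ≤ p := (le_max_right _ _).trans (le_max_left _ _)
  have hp1 : (d : ℝ) + 3 + 1 + 2 * (d + 3) * l / (1 - a) ≤ p := le_max_right _ _
  have hX0 : 0 ≤ 2 * ((d : ℝ) + 3) * l / (1 - a) := by positivity
  have hpd : (d : ℝ) + 3 < p := by linarith
  have hp2 : 1 ≤ p := by linarith
  have hp0 : 0 < p := by linarith
  set ν := ((d : ℝ) + 3) / (p - d - 3) with hν
  have hν0 : 0 ≤ ν := by
    rw [hν]; exact div_nonneg (by linarith) (by linarith)
  set γ' := 2 * ν with hγ'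
  have hγ'0 : 0 ≤ γ' := by rw [hγ']; positivity
  have hνl : l * γ' < 1 - a := by
    have h1 : l * γ' = 2 * (d + 3) * l / (p - d - 3) := by rw [hγ', hν]; ring
    rw [h1, div_lt_iff₀ (by linarith)]
    have h2 : (1 - a) * (1 + 2 * (d + 3) * l / (1 - a)) ≤ (1 - a) * (p - d - 3) :=
      mul_le_mul_of_nonneg_left (by linarith) ha1.le
    have h3 : (1 - a) * (1 + 2 * (d + 3) * l / (1 - a)) = (1 - a) + 2 * (d + 3) * l := by
      field_simp
    linarith
  obtain ⟨C₀, δ, ε₀, hC₀, hδ, hε₀, hest'⟩ := hest p hpq0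
  obtain ⟨A, hA, hAf⟩ := hall p
  set β := 4 * C₀ * (K * A) + 1 with hβ
  have hβ0 : 0 < β := by rw [hβ]; positivity
  obtain ⟨x, hx0, hx1, hxl, hxs⟩ := choose_x (l := l) (e := 1 - a - l * γ')
    (c₁ := 4 * C₀ * (4 ^ γ' * C) * T ^ (1 - a) / (1 - a)) (c₂ := β * T) hl0
    (by linarith)
  set t₁ := T - T * x with ht₁
  have hTx : T - t₁ = T * x := by rw [ht₁]; ring
  have hTx0 : 0 < T * x := mul_pos hT hx0
  have ht₁T : t₁ < T := by linarith
  have ht₁0 : 0 ≤ t₁ := by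
    rw [ht₁]
    have := mul_lt_mul_of_pos_left hx1 hT
    linarith
  set Λ := x ^ (-l) with hΛ
  have hΛ11 : 11 ≤ Λ := by
    rw [hΛ, Real.rpow_neg hx0.le, le_inv_comm₀ (by norm_num) (by positivity)]
    linarith
  have hΛ0 : 0 < Λ := by linarith
  set α := 4 * C₀ * ((4 * Λ) ^ γ' * C) with hα
  have hα0 : 0 ≤ α := by rw [hα]; positivity
  set N : ℝ → ℝ := fun r => α * ((T - t₁) ^ (1 - a) - (T - r) ^ (1 - a)) / (1 - a) + β * (r - t₁)
    with hN
  have hNd : ∀ t, t < T → HasDerivAt N (α * (T - t) ^ (-a) + β) t := fun t ht => prim_deriv ha ht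
  have hN0 : N t₁ = 0 := by rw [hN]; simp
  have hNnn : ∀ t ∈ Ico t₁ T, 0 ≤ N t := by
    intro t ht
    rw [hN]
    have h1 : (T - t) ^ (1 - a) ≤ (T - t₁) ^ (1 - a) :=
      Real.rpow_le_rpow (by linarith [ht.2]) (by linarith [ht.1]) ha1.le
    have h2 : 0 ≤ t - t₁ := by linarith [ht.1]
    have h3 : 0 ≤ (T - t₁) ^ (1 - a) - (T - t) ^ (1 - a) := by linarith
    positivity
  have hNle : ∀ t ∈ Ico t₁ T, N t ≤ Real.log 2 := by
    intro t ht
    refine le_trans ?_ hxs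
    rw [hN]
    have h1 : 0 ≤ (T - t) ^ (1 - a) := Real.rpow_nonneg (by linarith [ht.2]) _
    have h2 : α * ((T - t₁) ^ (1 - a) - (T - t) ^ (1 - a)) / (1 - a) ≤
        α * (T - t₁) ^ (1 - a) / (1 - a) := by
      refine div_le_div_of_nonneg_right (mul_le_mul_of_nonneg_left ?_ hα0) ha1.le
      linarith
    have h3 : α * (T - t₁) ^ (1 - a) / (1 - a) =
        4 * C₀ * (4 ^ γ' * C) * T ^ (1 - a) / (1 - a) * x ^ (1 - a - l * γ') := by
      rw [hα, hTx, Real.mul_rpow hT.le hx0.le, Real.mul_rpow (by norm_num) hΛ0.le, hΛ,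
        ← Real.rpow_mul hx0.le]
      have e : x ^ (1 - a - l * γ') = x ^ (-l * γ') * x ^ (1 - a) := by
        rw [← Real.rpow_add hx0]; congr 1; ring
      rw [e]
      ring
    have h4 : β * (t - t₁) ≤ β * T * x := by
      rw [mul_assoc]
      refine mul_le_mul_of_nonneg_left ?_ hβ0.le
      linarith [ht.2]
    linarith
  set m₁ := 2 * A * Λ ^ p with hm₁
  have hm₁0 : 0 < m₁ := by rw [hm₁]; positivity
  have hmain := hMAX2 d t₁ T f (fun t v => m₁ * Real.exp (N t) * ph p v)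
    (fun t v => (α * (T - t) ^ (-a) + β) * (m₁ * Real.exp (N t) * ph p v)) ht₁T
    (fun t ht => hf.periodic t ⟨ht₁0.trans ht.1, ht.2⟩)
    (hf.cont.mono (Set.prod_mono (fun t ht => ⟨ht₁0.trans ht.1, ht.2⟩) le_rfl))
    (by
      have h1 : ContinuousOn N (Ico t₁ T) := fun t ht => (hNd t ht.2).continuousAt.continuousWithinAt
      have h2 : ContinuousOn (fun p' : ℝ × E d => N p'.1) (Ico t₁ T ×ˢ univ) :=
        h1.comp continuousOn_fst (fun p' hp' => hp'.1)
      have h3 : Continuous (fun p' : ℝ × E d => ph p p'.2) := by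
        unfold ph
        refine (continuous_const.add ((continuous_norm.comp continuous_snd).pow 2)).rpow_const
          (fun y => Or.inl ?_)
        have : (0:ℝ) < 1 + ‖y.2‖ ^ 2 := by positivity
        exact this.ne'
      exact (continuousOn_const.mul (Real.continuous_exp.comp_continuousOn h2)).mul
        h3.continuousOn)
    (by
      intro t ht v
      have h1 := (((hNd t ht.2).exp).const_mul m₁).mul_const (ph p v)
      refine h1.congr_deriv ?_
      ring)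
    (by
      intro T' hT'
      obtain ⟨C', hC'⟩ := hf.decay T' (ht₁0.trans hT'.1) hT'.2 (p + 1)
      refine ⟨|C'| / m₁, fun t ht y v hv => ?_⟩
      have ht' : t ∈ Icc 0 T' := ⟨ht₁0.trans ht.1, ht.2⟩
      have hN' : 0 ≤ N t := hNnn t ⟨ht.1, lt_of_le_of_lt ht.2 hT'.2⟩
      have hpos : (0:ℝ) < 1 + ‖v‖ ^ 2 := by positivity
      have e1 : ph (p + 1) v = ph p v * (1 + ‖v‖ ^ 2) ^ (-(1 / 2) : ℝ) := by
        unfold ph
        rw [← Real.rpow_add hpos]
        congr 1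
        ring
      have h1 : |C'| * (1 + ‖v‖ ^ 2) ^ (-(1 / 2) : ℝ) < m₁ := by
        rw [Real.rpow_neg hpos.le, ← Real.sqrt_eq_rpow, ← div_eq_mul_inv,
          div_lt_iff₀ (Real.sqrt_pos.2 hpos)]
        have h2 : |C'| ≤ m₁ * ‖v‖ := by
          rw [div_le_iff₀ hm₁0] at hv
          linarith
        have h3 : ‖v‖ < √(1 + ‖v‖ ^ 2) := by
          refine Real.lt_sqrt_of_sq_lt ?_
          linarith
        exact h2.trans_lt (mul_lt_mul_of_pos_left h3 hm₁0)
      have h2 : m₁ ≤ m₁ * Real.exp (N t) := le_mul_of_one_le_right hm₁0.le (Real.one_le_exp hN')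
      calc f t y v ≤ C' * ph (p + 1) v := hC' t ht' y v
        _ ≤ |C'| * ph (p + 1) v := mul_le_mul_of_nonneg_right (le_abs_self _) (ph_pos _ _).le
        _ = (|C'| * (1 + ‖v‖ ^ 2) ^ (-(1 / 2) : ℝ)) * ph p v := by rw [e1]; ring
        _ < m₁ * ph p v := mul_lt_mul_of_pos_right h1 (ph_pos _ _)
        _ ≤ m₁ * Real.exp (N t) * ph p v := mul_le_mul_of_nonneg_right h2 (ph_pos _ _).le)
    (by
      intro y v
      simp only [hN0, Real.exp_zero, mul_one]
      have h1 := hAf t₁ ⟨ht₁0, ht₁T⟩ y v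
      have e0 : (T - t₁) / T = x := by rw [hTx]; field_simp
      rw [e0] at h1
      have hpos : (0:ℝ) < 1 + ‖v‖ ^ 2 := by positivity
      have h2 : (1 + ‖v‖ ^ 2 * x ^ (2 * l)) ^ (-(p / 2)) ≤ Λ ^ p * ph p v := by
        have e1 : Λ ^ p = (x ^ (2 * l)) ^ (-(p / 2)) := by
          rw [hΛ, ← Real.rpow_mul hx0.le, ← Real.rpow_mul hx0.le]
          congr 1
          ring
        unfold ph
        rw [e1, ← Real.mul_rpow (by positivity) hpos.le]
        refine Real.rpow_le_rpow_of_nonpos (by positivity) ?_ (by linarith)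
        have h3 : x ^ (2 * l) ≤ 1 := Real.rpow_le_one hx0.le hx1.le (by linarith)
        nlinarith
      have h3 : A * (1 + ‖v‖ ^ 2 * x ^ (2 * l)) ^ (-(p / 2)) ≤ A * (Λ ^ p * ph p v) :=
        mul_le_mul_of_nonneg_left h2 hA.le
      have h4 : 0 < A * (Λ ^ p * ph p v) :=
        mul_pos hA (mul_pos (by positivity) (ph_pos _ _))
      calc f t₁ y v ≤ A * (Λ ^ p * ph p v) := h1.trans h3
        _ < 2 * (A * (Λ ^ p * ph p v)) := by linarith
        _ = m₁ * ph p v := by rw [hm₁]; ring)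
    (by
      intro t ht y v hle heq
      have ht' : t ∈ Ioo 0 T := ⟨lt_of_le_of_lt ht₁0 ht.1, ht.2⟩
      have ht'' : t ∈ Ico 0 T := ⟨ht'.1.le, ht'.2⟩
      have htN : t ∈ Ico t₁ T := ⟨ht.1.le, ht.2⟩
      obtain ⟨L, hL, hlim⟩ := hf.eqn t ht' y v
      refine ⟨L, hL, ?_⟩
      have hcv := hf.cv ht'' y
      set m := m₁ * Real.exp (N t) with hm
      have hm0 : 0 < m := by rw [hm]; positivity
      have hmp : 0 < m * ph p v := mul_pos hm0 (ph_pos p v)
      set V := (m / A) ^ (1 / p) with hV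
      have hmA : 0 < m / A := by positivity
      have hV0 : 0 < V := by rw [hV]; positivity
      have hVp : V ^ p = m / A := by
        rw [hV, ← Real.rpow_mul hmA.le, one_div, inv_mul_cancel₀ hp0.ne', Real.rpow_one]
      have hAV : A * V ^ p = m := by rw [hVp]; field_simp
      have hexp1 : 1 ≤ Real.exp (N t) := Real.one_le_exp (hNnn t htN)
      have hexp2 : Real.exp (N t) ≤ 2 := by
        have := Real.exp_le_exp.2 (hNle t htN)
        rwa [Real.exp_log (by norm_num)] at this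
      have hmA1 : m / A = 2 * Real.exp (N t) * Λ ^ p := by
        rw [hm, hm₁]; field_simp
      have hΛp : 0 < Λ ^ p := by positivity
      have hVΛ : Λ ≤ V := by
        rw [← Real.rpow_le_rpow_iff hΛ0.le hV0.le hp0, hVp, hmA1]
        nlinarith
      have hVΛ' : V ≤ 4 * Λ := by
        rw [← Real.rpow_le_rpow_iff hV0.le (by positivity) hp0, hVp, hmA1,
          Real.mul_rpow (by norm_num) hΛ0.le]
        refine mul_le_mul_of_nonneg_right ?_ hΛp.le
        have h4 : (4:ℝ) ^ (1:ℝ) ≤ 4 ^ p := Real.rpow_le_rpow_of_exponent_le (by norm_num) hp2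
        rw [Real.rpow_one] at h4
        linarith
      have hτ : 0 < (T - t) / T := div_pos (by linarith [ht.2]) hT
      have hfA : m * ph p v ≤ A := by
        have h1 := hAf t ht'' y v
        rw [heq] at h1
        refine h1.trans ?_
        refine mul_le_of_le_one_right hA.le ?_
        refine Real.rpow_le_one_of_one_le_of_nonpos ?_ (by linarith)
        have : 0 ≤ ‖v‖ ^ 2 * ((T - t) / T) ^ (2 * l) := by positivity
        linarith
      have hpos : (0:ℝ) < 1 + ‖v‖ ^ 2 := by positivity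
      have hV2 : V ^ 2 ≤ 1 + ‖v‖ ^ 2 := by
        have h1 : V ^ p * ph p v ≤ 1 := by
          rw [hVp, div_mul_eq_mul_div, div_le_one hA]
          exact hfA
        have h2 : V ^ p ≤ (1 + ‖v‖ ^ 2) ^ (p / 2) := by
          have h3 : ph p v = ((1 + ‖v‖ ^ 2) ^ (p / 2))⁻¹ := by
            unfold ph; rw [Real.rpow_neg hpos.le]
          rw [h3, ← div_eq_mul_inv, div_le_one (by positivity)] at h1
          exact h1
        have h4 : V ^ p = (V ^ 2) ^ (p / 2) := by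
          rw [← Real.rpow_natCast, ← Real.rpow_mul hV0.le]; congr 1; push_cast; ring
        rw [h4, Real.rpow_le_rpow_iff (by positivity) hpos.le (by linarith)] at h2
        exact h2
      have hV11 : 11 ≤ V := hΛ11.trans hVΛ
      have hv10 : 10 ≤ ‖v‖ := by
        have h1 : (10:ℝ) ^ 2 ≤ ‖v‖ ^ 2 := by nlinarith
        exact le_of_sq_le_sq h1 (norm_nonneg v)
      have hvV : V / 2 ≤ ‖v‖ := by
        have h1 : (V / 2) ^ 2 ≤ ‖v‖ ^ 2 := by nlinarith
        exact le_of_sq_le_sq h1 (norm_nonneg v)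
      have hFi : Integrable (fun w => f t y w * ‖v - w‖ ^ γ) :=
        (((hMC3 hRZ d T γ 0 f hd hT hγd hγ hf.nonneg hf.periodic hf.cont hf.decay).2 t ht'').2
          y v).1
      have hF0 := hf.nonneg t ht'' y
      have hFm : ∀ w, f t y w ≤ A * V ^ p * ph p w := by
        intro w; rw [hAV]; exact hle y w
      have hVj : V ≤ √(1 + ‖v‖ ^ 2) := Real.le_sqrt_of_sq_le hV2
      have hkey := key_int3 (δ := δ) hs0 hs1 hpd hA (by linarith : (2:ℝ) ≤ V) hF0 hFm hFi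
        (hmass t ht'' y v) (hRZ1 v).1 (hRZ1 v).2 hVj
      rw [← hν, ← hγ'] at hkey
      have hLle : L (1, v) ≤ C₀ * (m * ph p v) *
          ∫ w in {w : E d | ‖v‖ < 10 ∨ δ * ‖v‖ ≤ ‖w‖},
            f t y w * (‖v - w‖ ^ γ * (1 + ‖w‖ / √(1 + ‖v‖ ^ 2)) ^ (2 * s)) := by
        refine le_of_tendsto hlim ?_
        filter_upwards [Ioo_mem_nhdsGT hε₀] with ε hε
        exact hest' ε hε.1 hε.2 (f t y) m hcv hF0 hm0 (fun w => hle y w) v heq
      have hρ0 : 0 ≤ C * (T - t) ^ (-a) :=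
        mul_nonneg hC (Real.rpow_nonneg (by linarith [ht.2]) _)
      have hVγ : V ^ γ' ≤ (4 * Λ) ^ γ' := Real.rpow_le_rpow hV0.le hVΛ' hγ'0
      have h5 : 4 * (V ^ γ' * (C * (T - t) ^ (-a)) + K * A) ≤
          4 * ((4 * Λ) ^ γ' * (C * (T - t) ^ (-a)) + K * A) := by
        have := mul_le_mul_of_nonneg_right hVγ hρ0
        linarith
      calc L (1, v) ≤ C₀ * (m * ph p v) *
            (4 * ((4 * Λ) ^ γ' * (C * (T - t) ^ (-a)) + K * A)) :=
            hLle.trans (mul_le_mul_of_nonneg_left (hkey.trans h5) (by positivity))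
        _ < C₀ * (m * ph p v) * (4 * ((4 * Λ) ^ γ' * (C * (T - t) ^ (-a)) + K * A)) +
            m * ph p v := lt_add_of_pos_right _ hmp
        _ = (α * (T - t) ^ (-a) + β) * (m * ph p v) := by rw [hα, hβ]; ring)
  obtain ⟨C'', hC''⟩ := hf.decay t₁ ht₁0 ht₁T q
  refine ⟨max (m₁ * 2) C'', lt_of_lt_of_le (by positivity) (le_max_left _ _), ?_⟩
  intro t ht y v
  rcases le_or_gt t t₁ with h | h
  · refine (hC'' t ⟨ht.1, h⟩ y v).trans ?_
    exact mul_le_mul_of_nonneg_right (le_max_right _ _) (ph_pos _ _).le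
  · have htN : t ∈ Ico t₁ T := ⟨h.le, ht.2⟩
    have h1 := (hmain t htN y v).le
    have hexp2 : Real.exp (N t) ≤ 2 := by
      have := Real.exp_le_exp.2 (hNle t htN)
      rwa [Real.exp_log (by norm_num)] at this
    have h3 : ph p v ≤ ph q v := by
      unfold ph
      refine Real.rpow_le_rpow_of_exponent_le ?_ (by linarith)
      nlinarith [sq_nonneg ‖v‖]
    calc f t y v ≤ m₁ * Real.exp (N t) * ph p v := h1
      _ ≤ (m₁ * 2) * ph q v := by
          refine mul_le_mul ?_ h3 (ph_pos p v).le (by positivity)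
          exact mul_le_mul_of_nonneg_left hexp2 hm₁0.le
      _ ≤ _ := mul_le_mul_of_nonneg_right (le_max_left _ _) (ph_pos _ _).le

end Pool.Agent.L7h65.BI
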